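import Pool.Agent.T2h8.R3.Stm

/-!
# R3, task AM (helper94): transformation of `Am`, `Ow`
-/

set_option autoImplicit false

open MvPolynomial Pool.Agent.Z15.ME

namespace Pool.Agent.T2h8.R3

theorem t_AM (h_T3 : S_T3) (h_HB : S_HB) : S_AM := by
  intro n R _ c hn hdet
  obtain ⟨-, -, -, -, -⟩ := h_T3 n R
  obtain ⟨hsym, htr, hact, hsc, hmap⟩ := h_HB n R c hn
  refine ⟨?_, ?_, ?_, ?_, ?_, ?_⟩
  · rw [Am, Matrix.trace_smul, htr, smul_eq_mul]
    field_simp
  · rw [Ow, Matrix.transpose_sub, Matrix.transpose_mul, Matrix.transpose_mul, Matrix.transpose_transpose, hsym,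
      neg_sub]
  · intro i j
    rw [Am, Matrix.smul_apply, smul_eq_mul, Bm, Matrix.of_apply, Finset.mul_sum, Matrix.inv_def,
      Ring.inverse_eq_inv']
    refine Finset.sum_congr rfl fun k _ => ?_
    rw [Finset.mul_sum]
    refine Finset.sum_congr rfl fun l _ => ?_
    rw [Matrix.smul_apply, smul_eq_mul, mul_assoc]
  · intro A A' hAA'
    have hA'A : A' * A = 1 := mul_eq_one_comm.1 hAA'
    obtain ⟨hH, hB⟩ := hact A A' hAA'
    have hd' : A'.det ≠ 0 := by
      intro h0
      have h1 := congrArg Matrix.det hAA'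
      rw [Matrix.det_mul, h0, mul_zero, Matrix.det_one] at h1
      exact zero_ne_one h1
    have hdet' : (Hm (act A A' c)).det = A'.det ^ 2 * (Hm c).det := by
      rw [hH, Matrix.det_mul, Matrix.det_mul, Matrix.det_transpose]
      ring
    have hAm : Am (act A A' c) = A * Am c * A' := by
      rw [Am, Am, hdet', hB, smul_smul, Matrix.mul_smul, Matrix.smul_mul]
      congr 1
      field_simp
    refine ⟨?_, hAm, ?_⟩
    · rw [hdet']
      exact mul_ne_zero (pow_ne_zero _ hd') hdet
    · rw [Ow, Ow, hAm, hH]
      have h1 : A'.transpose * Hm c * A' * (A * Am c * A') = A'.transpose * (Hm c * Am c) * A' := by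
        calc A'.transpose * Hm c * A' * (A * Am c * A')
            = A'.transpose * Hm c * (A' * A) * (Am c * A') := by simp only [mul_assoc]
          _ = A'.transpose * (Hm c * Am c) * A' := by rw [hA'A, mul_one]; simp only [mul_assoc]
      have h2 : (A * Am c * A').transpose * (A'.transpose * Hm c * A')
          = A'.transpose * ((Am c).transpose * Hm c) * A' := by
        calc (A * Am c * A').transpose * (A'.transpose * Hm c * A')
            = A'.transpose * (Am c).transpose * (A' * A).transpose * (Hm c * A') := by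
              simp only [Matrix.transpose_mul, mul_assoc]
          _ = A'.transpose * ((Am c).transpose * Hm c) * A' := by
              rw [hA'A, Matrix.transpose_one, mul_one]; simp only [mul_assoc]
      rw [h1, h2, mul_sub, sub_mul]
  · intro s hs
    obtain ⟨hH, hB⟩ := hsc s
    have hAm : Am (fun p => s * c p) = Am c := by
      rw [Am, Am, hH, hB, Matrix.det_smul, Fintype.card_fin, smul_smul]
      congr 1
      have h1 : s ^ n ≠ 0 := pow_ne_zero _ hs
      field_simp
    refine ⟨hAm, ?_⟩
    rw [Ow, Ow, hAm, hH, Matrix.smul_mul, Matrix.mul_smul, smul_sub]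
  · intro S _ σ
    obtain ⟨hH, hB⟩ := hmap S σ
    have hAm : Am (fun p => σ (c p)) = (Am c).map σ := by
      rw [Am, Am, hH, hB]
      ext i j
      have h1 : ((Hm c).map σ).det = σ (Hm c).det := by
        rw [RingHom.map_det]
        rfl
      rw [h1]
      simp only [Matrix.smul_apply, Matrix.map_apply, smul_eq_mul, map_mul, map_inv₀]
    refine ⟨hAm, ?_⟩
    rw [Ow, Ow, hAm, hH]
    ext i j
    simp only [Matrix.sub_apply, Matrix.map_apply, Matrix.mul_apply, Matrix.transpose_apply, map_sub, map_sum,
      map_mul]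

end Pool.Agent.T2h8.R3
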