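import Pool.Agent.T2h8.R3.Stm

set_option autoImplicit false

open MvPolynomial Pool.Agent.Z15.ME Matrix

namespace Pool.Agent.T2h8.R3

namespace EXaux

/-- the matrix of the example -/
def AA (N : ℕ) : Matrix (Fin (N + 1)) (Fin (N + 1)) ℚ := Matrix.of fun i j =>
  if (i : ℕ) = j + 1 then (if (i : ℕ) % 2 = 0 then 2 else 1)
  else if (j : ℕ) = i + 1 then (if (j : ℕ) % 2 = 0 then 0 else 1)
  else if (i : ℕ) = 0 ∧ (j : ℕ) = 0 then (N : ℚ) + 1 else 0

/-- twice its skew part -/
def OO (N : ℕ) : Matrix (Fin (N + 1)) (Fin (N + 1)) ℚ := Matrix.of fun i j =>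
  if (i : ℕ) = j + 1 ∧ (i : ℕ) % 2 = 0 then 2
  else if (j : ℕ) = i + 1 ∧ (j : ℕ) % 2 = 0 then -2 else 0

theorem OO_eq (N : ℕ) : AA N - (AA N).transpose = OO N := by
  ext i j
  simp only [AA, OO, Matrix.sub_apply, Matrix.transpose_apply, Matrix.of_apply]
  split_ifs <;> first | omega | norm_num

theorem trace_AA (N : ℕ) : (AA N).trace = (N : ℚ) + 1 := by
  unfold Matrix.trace
  rw [Finset.sum_eq_single (0 : Fin (N + 1))]
  · simp [AA]
  · intro i _ hi
    have h0 : (i : ℕ) ≠ 0 := fun h => hi (Fin.ext (by simpa using h))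
    simp [AA, Matrix.diag, hi]
  · intro h; exact absurd (Finset.mem_univ _) h

theorem adj_ne (N : ℕ) (i : Fin (N + 1)) (hi : i ≠ 0) : (OO N).adjugate i 0 = 0 := by
  rw [Matrix.adjugate_apply]
  apply Matrix.det_eq_zero_of_column_eq_zero (0 : Fin (N + 1))
  intro k
  by_cases hk : k = 0
  · subst hk
    rw [Matrix.updateRow_self, Pi.single_eq_of_ne (Ne.symm hi)]
  · rw [Matrix.updateRow_ne hk]
    simp only [OO, Matrix.of_apply]
    have h0 : (k : ℕ) ≠ 0 := fun h => hk (Fin.ext (by simpa using h))
    rw [if_neg, if_neg]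
    · rintro ⟨h1, h2⟩
      simp at h1
    · rintro ⟨h1, h2⟩
      simp at h1
      omega

theorem adj_zero (N : ℕ) (hN : Even N) : (OO N).adjugate 0 0 ≠ 0 := by
  rw [Matrix.adjugate_apply]
  intro h
  obtain ⟨v, hv, hv0⟩ := Matrix.exists_mulVec_eq_zero_iff.mpr h
  apply hv
  have hN2 : N % 2 = 0 := Nat.even_iff.mp hN
  ext k
  have hrow : ∀ r : Fin (N + 1), r ≠ 0 → ∑ j, OO N r j * v j = 0 := by
    intro r hr
    have := congrFun hv0 r
    simp only [Matrix.mulVec, dotProduct, Matrix.updateRow_ne hr] at this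
    simpa using this
  by_cases hk0 : k = 0
  · subst hk0
    have := congrFun hv0 0
    simpa [Matrix.mulVec, dotProduct, Pi.single_apply] using this
  · have h0 : (k : ℕ) ≠ 0 := fun h => hk0 (Fin.ext (by simpa using h))
    by_cases hev : (k : ℕ) % 2 = 0
    · -- row k - 1
      have hk1 : (k : ℕ) - 1 < N + 1 := by have := k.2; omega
      have hr := hrow ⟨(k : ℕ) - 1, hk1⟩ (by
        intro h
        have := congrArg Fin.val h
        simp at this
        omega)
      rw [Finset.sum_eq_single k] at hr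
      · simp only [OO, Matrix.of_apply] at hr
        rw [if_neg (by omega), if_pos ⟨by omega, hev⟩] at hr
        simpa using hr
      · intro j _ hj
        have hjk : (j : ℕ) ≠ k := fun h => hj (Fin.ext h)
        simp only [OO, Matrix.of_apply]
        rw [if_neg (by omega), if_neg (by omega), zero_mul]
      · intro h; exact absurd (Finset.mem_univ _) h
    · have hk1 : (k : ℕ) + 1 < N + 1 := by have := k.2; omega
      have hr := hrow ⟨(k : ℕ) + 1, hk1⟩ (by
        intro h
        have := congrArg Fin.val h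
        simp at this)
      rw [Finset.sum_eq_single k] at hr
      · simp only [OO, Matrix.of_apply] at hr
        have hodd : ((k : ℕ) + 1) % 2 = 0 := by omega
        simpa [hodd] using hr
      · intro j _ hj
        have hjk : (j : ℕ) ≠ k := fun h => hj (Fin.ext h)
        simp only [OO, Matrix.of_apply]
        rw [if_neg (by omega), if_neg (by omega), zero_mul]
      · intro h; exact absurd (Finset.mem_univ _) h

theorem pow_AA (N : ℕ) (j : ℕ) : (∀ i : Fin (N + 1), j < (i : ℕ) → (AA N ^ j) i 0 = 0) ∧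
    ∀ i : Fin (N + 1), (i : ℕ) = j → (AA N ^ j) i 0 ≠ 0 := by
  induction j with
  | zero =>
    refine ⟨fun i hi => ?_, fun i hi => ?_⟩
    · rw [pow_zero, Matrix.one_apply_ne]
      intro h
      rw [h] at hi
      simp at hi
    · have : i = 0 := Fin.ext (by simpa using hi)
      rw [this]
      simp
  | succ j ih =>
    refine ⟨fun i hi => ?_, fun i hi => ?_⟩
    · rw [pow_succ', Matrix.mul_apply]
      apply Finset.sum_eq_zero
      intro k _
      by_cases hk : j < (k : ℕ)
      · rw [ih.1 k hk, mul_zero]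
      · have : AA N i k = 0 := by
          simp only [AA, Matrix.of_apply]
          rw [if_neg (by omega), if_neg (by omega), if_neg (by omega)]
        rw [this, zero_mul]
    · rw [pow_succ', Matrix.mul_apply]
      have hj : j < N + 1 := by have := i.2; omega
      rw [Finset.sum_eq_single (⟨j, hj⟩ : Fin (N + 1))]
      · apply mul_ne_zero
        · simp only [AA, Matrix.of_apply]
          rw [if_pos hi]
          split_ifs <;> norm_num
        · exact ih.2 _ rfl
      · intro k _ hk
        have hkj : (k : ℕ) ≠ j := fun h => hk (Fin.ext h)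
        by_cases hk : j < (k : ℕ)
        · rw [ih.1 k hk, mul_zero]
        · have : AA N i k = 0 := by
            simp only [AA, Matrix.of_apply]
            rw [if_neg (by omega), if_neg (by omega), if_neg (by omega)]
          rw [this, zero_mul]
      · intro h; exact absurd (Finset.mem_univ _) h

end EXaux

open EXaux in
theorem t_EX (h_SUR : S_SUR) (h_AM : S_AM) (_h_HB : S_HB) : S_EX := by
  intro N hN hev
  obtain ⟨c, hc, hA⟩ := h_SUR (N + 1) ℚ (by omega) 1 1 (AA N) (by simp) (by simp) (by simp)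
    (by rw [trace_AA]; simp)
  have hdet : (Hm c).det ≠ 0 := by rw [hc]; simp
  obtain ⟨-, -, hAm, -, -, -⟩ := h_AM (N + 1) ℚ c (by omega) hdet
  have hAc : Am c = AA N := by
    ext i j
    rw [hAm, hc]
    exact hA i j
  have hO : Ow c = OO N := by
    unfold Ow
    rw [hc, hAc, Matrix.one_mul, Matrix.mul_one, OO_eq]
  obtain ⟨d, hd⟩ : ∃ d, d = (OO N).adjugate 0 0 := ⟨_, rfl⟩
  have hd0 : d ≠ 0 := by rw [hd]; exact adj_zero N hev
  have hw : wv c = Pi.single 0 d := by
    ext i
    unfold wv
    rw [hO]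
    by_cases hi : i = 0
    · subst hi; simp [hd]
    · rw [adj_ne N i hi, Pi.single_eq_of_ne hi]
  have hF : ∀ i j, Fr c i j = d * (AA N ^ (j : ℕ)) i 0 := by
    intro i j
    simp only [Fr, Matrix.of_apply]
    rw [hAc, hw, Matrix.mulVec_single]
    simp [mul_comm]
  refine ⟨c, hdet, ?_, ?_, ?_⟩
  · rw [hw]
    intro h
    have := congrFun h 0
    simp at this
    exact hd0 this
  · have htri : (Fr c).BlockTriangular id := by
      intro i j hij
      rw [hF, (pow_AA N j).1 i hij, mul_zero]
    rw [Matrix.det_of_upperTriangular htri, Finset.prod_ne_zero_iff]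
    intro i _
    rw [hF]
    exact mul_ne_zero hd0 ((pow_AA N i).2 i rfl)
  · rw [hc, hw]
    simp [hd0]

end Pool.Agent.T2h8.R3
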