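import Pool.Agent.T2h8.R3.Stm

/-! # MP_82c165_ag, project R3: the frame (task FR, helper51) -/

set_option autoImplicit false

open MvPolynomial Pool.Agent.Z15.ME Matrix

namespace Pool.Agent.T2h8.R3

theorem t_FR (h_GN : S_GN) (h_KER : S_KER) (h_AM : S_AM) : S_FR := by
  intro N K M _ _ _ _ D g
  have : CharZero M := charZero_of_injective_algebraMap (algebraMap K M).injective
  obtain ⟨hH, hw, -, -⟩ := h_GN N K M D.hN D.hev D.f D.ind
  obtain ⟨-, hskew, -, hconj, -, hmap⟩ := h_AM (N + 1) M D.f (by omega) hH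
  set A : Matrix (Fin (N + 1)) (Fin (N + 1)) M := ext M g.1.1 with hA
  set A' : Matrix (Fin (N + 1)) (Fin (N + 1)) M := ext M g.1.2 with hA'
  have hAA' : A * A' = 1 := by
    have h := g.2
    rw [hA, hA']
    have h1 := congrArg (fun X : Matrix (Fin (N + 1)) (Fin (N + 1)) K => X.map (algebraMap K M)) h
    simp only [Matrix.map_mul] at h1
    rw [Matrix.map_one _ (map_zero _) (map_one _)] at h1
    exact h1
  have hA'A : A' * A = 1 := mul_eq_one_comm.mp hAA'
  obtain ⟨-, hAm, hOw⟩ := hconj A A' hAA'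
  obtain ⟨mAm, mOw⟩ := hmap M (D.φ g : M →+* M)
  have hf : (fun p => (D.φ g : M →+* M) (D.f p)) = act A A' D.f := by
    funext p
    exact D.hφ g p
  rw [hf, hAm] at mAm
  rw [hf, hOw] at mOw
  obtain ⟨hk0, hk1⟩ := h_KER N M D.hev (Ow D.f) hskew hw
  set w : Fin (N + 1) → M := wv D.f with hwdef
  have hk0 : (Ow D.f).mulVec w = 0 := hk0
  set w' : Fin (N + 1) → M := fun i => D.φ g (w i) with hw'
  have h1 : (A'.transpose * Ow D.f * A').mulVec w' = 0 := by
    rw [mOw]
    funext i
    have := congrArg (D.φ g) (congrFun hk0 i)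
    simp only [mulVec, dotProduct, map_sum, map_mul, Pi.zero_apply, map_zero] at this ⊢
    exact this
  have h2 : (Ow D.f).mulVec (A'.mulVec w') = 0 := by
    have h3 : A.transpose.mulVec ((A'.transpose * Ow D.f * A').mulVec w') = 0 := by
      rw [h1, mulVec_zero]
    rw [mulVec_mulVec] at h3
    rw [mulVec_mulVec]
    have h4 : A.transpose * (A'.transpose * Ow D.f * A') = Ow D.f * A' := by
      rw [Matrix.mul_assoc A'.transpose, ← Matrix.mul_assoc A.transpose, ← transpose_mul, hA'A,
        transpose_one, Matrix.one_mul]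
    rwa [h4] at h3
  obtain ⟨s, hs⟩ := hk1 _ h2
  have hs' : A'.mulVec w' = s • w := by
    rw [hs]; rfl
  have h5 : w' = s • A.mulVec w := by
    have : A.mulVec (A'.mulVec w') = A.mulVec (s • w) := by rw [hs']
    rw [mulVec_mulVec, hAA', one_mulVec, mulVec_smul] at this
    exact this
  have hs0 : s ≠ 0 := by
    rintro rfl
    apply hw
    rw [zero_smul] at h5
    funext i
    have := congrFun h5 i
    simp only [hw', Pi.zero_apply] at this
    exact (map_eq_zero (D.φ g)).mp this
  refine ⟨s, hs0, ?_⟩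
  have hpow : ∀ j : ℕ, (A * Am D.f * A') ^ j * A = A * Am D.f ^ j := by
    intro j
    induction j with
    | zero => simp
    | succ j ih =>
      have e : A * Am D.f * A' * A = A * Am D.f := by
        rw [Matrix.mul_assoc, hA'A, Matrix.mul_one]
      rw [pow_succ, Matrix.mul_assoc, e, ← Matrix.mul_assoc, ih, Matrix.mul_assoc, ← pow_succ]
  ext i j
  have e1 : ((Fr D.f).map (D.φ g)) i j = (((Am D.f).map (D.φ g) ^ (j : ℕ)).mulVec w') i := by
    have e2 : (Am D.f).map (D.φ g) ^ (j : ℕ) = (Am D.f ^ (j : ℕ)).map (D.φ g) := by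
      exact (map_pow (RingHom.mapMatrix (D.φ g : M →+* M)) (Am D.f) (j : ℕ)).symm
    rw [e2]
    simp only [Fr, Matrix.map_apply, Matrix.of_apply, mulVec, dotProduct, map_sum, map_mul, hw']
    rfl
  rw [e1]
  have e3 : (Am D.f).map (D.φ g) = A * Am D.f * A' := mAm.symm
  rw [e3, h5, mulVec_smul, mulVec_mulVec, hpow, ← mulVec_mulVec]
  rfl

end Pool.Agent.T2h8.R3
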