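import Pool.Agent.T2h8.R3.Stm

set_option autoImplicit false

open MvPolynomial Pool.Agent.Z15.ME

namespace Pool.Agent.T2h8.R3

namespace GNh

section
variable {R : Type} [CommRing R] {N : ℕ}

/-- `det Hm` times `Ow` -/
noncomputable def O1 (c : Ix N 2 → R) : Matrix (Fin (N + 1)) (Fin (N + 1)) R :=
  Hm c * Bm c - (Bm c).transpose * Hm c

/-- the first column of its adjugate -/
noncomputable def w1 (c : Ix N 2 → R) : Fin (N + 1) → R := fun i => (O1 c).adjugate i 0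

/-- the frame without denominators -/
noncomputable def F1 (c : Ix N 2 → R) : Matrix (Fin (N + 1)) (Fin (N + 1)) R :=
  Matrix.of fun i j => ((Bm c ^ (j : ℕ)).mulVec (w1 c)) i

theorem O1_map (h_HB : S_HB) {S : Type} [CommRing S] (σ : R →+* S) (c : Ix N 2 → R) :
    O1 (fun p => σ (c p)) = (O1 c).map σ := by
  obtain ⟨h1, h2⟩ := (h_HB (N + 1) R c (by omega)).2.2.2.2 S σ
  unfold O1
  rw [h1, h2, Matrix.map_sub σ (map_sub σ), Matrix.map_mul, Matrix.map_mul, Matrix.transpose_map]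

theorem w1_map (h_HB : S_HB) {S : Type} [CommRing S] (σ : R →+* S) (c : Ix N 2 → R) :
    w1 (fun p => σ (c p)) = fun i => σ (w1 c i) := by
  funext i
  unfold w1
  rw [O1_map h_HB]
  have h := congrFun (congrFun (σ.map_adjugate (O1 c)) i) 0
  exact h.symm

theorem F1_map (h_HB : S_HB) {S : Type} [CommRing S] (σ : R →+* S) (c : Ix N 2 → R) :
    F1 (fun p => σ (c p)) = (F1 c).map σ := by
  obtain ⟨h1, h2⟩ := (h_HB (N + 1) R c (by omega)).2.2.2.2 S σ
  ext i j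
  unfold F1
  rw [h2, w1_map h_HB]
  simp only [Matrix.of_apply, Matrix.map_apply]
  rw [RingHom.map_mulVec]
  have h3 : (Bm c ^ (j : ℕ)).map σ = (Bm c).map σ ^ (j : ℕ) := map_pow σ.mapMatrix (Bm c) (j : ℕ)
  rw [h3]
  rfl

theorem H_map (h_HB : S_HB) {S : Type} [CommRing S] (σ : R →+* S) (c : Ix N 2 → R) :
    (Hm (fun p => σ (c p))).det = σ (Hm c).det := by
  obtain ⟨h1, h2⟩ := (h_HB (N + 1) R c (by omega)).2.2.2.2 S σ
  rw [h1, RingHom.map_det]
  rfl

theorem q_map (h_HB : S_HB) {S : Type} [CommRing S] (σ : R →+* S) (c : Ix N 2 → R) :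
    w1 (fun p => σ (c p)) ⬝ᵥ (Hm (fun p => σ (c p))).mulVec (w1 (fun p => σ (c p))) =
      σ (w1 c ⬝ᵥ (Hm c).mulVec (w1 c)) := by
  obtain ⟨h1, h2⟩ := (h_HB (N + 1) R c (by omega)).2.2.2.2 S σ
  rw [h1, w1_map h_HB, RingHom.map_dotProduct]
  congr 1
  funext i
  exact (RingHom.map_mulVec σ (Hm c) (w1 c) i).symm

end

section
variable {F : Type} [Field F] {N : ℕ}

theorem Ow_eq (c : Ix N 2 → F) : Ow c = (Hm c).det⁻¹ • O1 c := by
  unfold Ow O1 Am
  rw [Matrix.mul_smul, Matrix.transpose_smul, Matrix.smul_mul, smul_sub]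

theorem wv_eq (c : Ix N 2 → F) : wv c = ((Hm c).det⁻¹) ^ N • w1 c := by
  funext i
  unfold wv w1
  rw [Ow_eq, Matrix.adjugate_smul, Fintype.card_fin]
  simp

theorem Fr_eq (c : Ix N 2 → F) : Fr c =
    F1 c * Matrix.diagonal fun j : Fin (N + 1) => ((Hm c).det⁻¹) ^ ((j : ℕ) + N) := by
  ext i j
  rw [Matrix.mul_diagonal]
  unfold Fr F1
  simp only [Matrix.of_apply]
  rw [wv_eq]
  unfold Am
  rw [smul_pow, Matrix.smul_mulVec, Matrix.mulVec_smul, smul_smul, ← pow_add]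
  simp [mul_comm]

theorem key (c : Ix N 2 → F) (h : (Hm c).det ≠ 0) : (wv c ≠ 0 ↔ w1 c ≠ 0) ∧
    ((Fr c).det ≠ 0 ↔ (F1 c).det ≠ 0) ∧
    (wv c ⬝ᵥ (Hm c).mulVec (wv c) ≠ 0 ↔ w1 c ⬝ᵥ (Hm c).mulVec (w1 c) ≠ 0) := by
  have h0 : ∀ k : ℕ, ((Hm c).det⁻¹) ^ k ≠ 0 := fun k => pow_ne_zero _ (inv_ne_zero h)
  refine ⟨?_, ?_, ?_⟩
  · rw [wv_eq, Ne, smul_eq_zero, not_or]
    exact ⟨fun h1 => h1.2, fun h1 => ⟨h0 N, h1⟩⟩
  · rw [Fr_eq, Matrix.det_mul, Matrix.det_diagonal, Ne, mul_eq_zero, not_or]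
    exact ⟨fun h1 => h1.1, fun h1 => ⟨h1, Finset.prod_ne_zero_iff.2 fun j _ => h0 _⟩⟩
  · rw [wv_eq, Matrix.mulVec_smul, smul_dotProduct, dotProduct_smul, smul_smul, Ne, smul_eq_zero,
      not_or]
    exact ⟨fun h1 => h1.2, fun h1 => ⟨mul_ne_zero (h0 N) (h0 N), h1⟩⟩

end

end GNh

open GNh in
theorem t_GN (h_EX : S_EX) (h_AM : S_AM) (h_HB : S_HB) (h_T3 : S_T3) : S_GN := by
  intro N K M _ _ _ _ hN hev f hf
  obtain ⟨c, hc1, hc2, hc3, hc4⟩ := h_EX N hN hev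
  -- the generic point over the integers
  let x : Ix N 2 → MvPolynomial (Ix N 2) ℤ := fun p => X p
  let σ : MvPolynomial (Ix N 2) ℤ →+* M := eval₂Hom (Int.castRingHom M) f
  let τ : MvPolynomial (Ix N 2) ℤ →+* ℚ := eval₂Hom (Int.castRingHom ℚ) c
  have hσ : (fun p => σ (x p)) = f := by
    funext p
    simp [σ, x]
  have hτ : (fun p => τ (x p)) = c := by
    funext p
    simp [τ, x]
  have hinj : ∀ y, y ≠ 0 → σ y ≠ 0 := by
    have h1 : Function.Injective σ := by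
      have h2 : σ = ((aeval f : MvPolynomial (Ix N 2) K →ₐ[K] M) : MvPolynomial (Ix N 2) K →+* M).comp
          (MvPolynomial.map (Int.castRingHom K)) := by
        apply MvPolynomial.ringHom_ext
        · intro r
          simp [σ]
        · intro p
          simp [σ]
      rw [h2, RingHom.coe_comp]
      exact (show Function.Injective (aeval f : MvPolynomial (Ix N 2) K →ₐ[K] M) from hf).comp
        (MvPolynomial.map_injective _ (Int.cast_injective (α := K)))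
    intro y hy h2
    exact hy (h1 (by rw [h2, map_zero]))
  obtain ⟨k1, k2, k3⟩ := key c hc1
  have e1 : (Hm x).det ≠ 0 := by
    intro h
    apply hc1
    rw [← hτ, H_map h_HB, h, map_zero]
  have e2 : w1 x ≠ 0 := by
    intro h
    apply k1.1 hc2
    rw [← hτ, w1_map h_HB, h]
    funext i
    simp
  have e3 : (F1 x).det ≠ 0 := by
    intro h
    apply k2.1 hc3
    rw [← hτ, F1_map h_HB]
    have h1 := τ.map_det (F1 x)
    rw [h, map_zero] at h1
    exact h1.symm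
  have e4 : w1 x ⬝ᵥ (Hm x).mulVec (w1 x) ≠ 0 := by
    intro h
    apply k3.1 hc4
    rw [← hτ, q_map h_HB, h, map_zero]
  have g1 : (Hm f).det ≠ 0 := by
    rw [← hσ, H_map h_HB]
    exact hinj _ e1
  obtain ⟨l1, l2, l3⟩ := key f g1
  refine ⟨g1, l1.2 ?_, l2.2 ?_, l3.2 ?_⟩
  · obtain ⟨i, hi⟩ := Function.ne_iff.1 e2
    intro h
    apply hinj _ hi
    have h1 := congrFun h i
    rw [← hσ, w1_map h_HB] at h1
    exact h1
  · rw [← hσ, F1_map h_HB]
    have h1 := σ.map_det (F1 x)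
    intro h
    apply hinj _ e3
    rw [h1]
    exact h
  · rw [← hσ, q_map h_HB]
    exact hinj _ e4

end Pool.Agent.T2h8.R3
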