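import Pool.Agent.T2h8.R3.Stm

/-! The field generated by the entries of the Hessian matrix and of the companion matrix (HA). -/

set_option autoImplicit false

namespace Pool.Agent.T2h8.R3

namespace HA

theorem gauss (m : ℕ) : 2 * ∑ i ∈ Finset.range m, (i + 1) = m * (m + 1) := by
  induction m with
  | zero => simp
  | succ m ih =>
    rw [Finset.sum_range_succ, mul_add, ih]
    ring

theorem card_le (m : ℕ) :
    2 * (Finset.univ.filter fun p : Fin m × Fin m => p.1 ≤ p.2).card = m * (m + 1) := by
  classical
  have h1 : (Finset.univ.filter fun p : Fin m × Fin m => p.1 ≤ p.2).card =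
      ∑ j : Fin m, ((j : ℕ) + 1) := by
    rw [Finset.card_filter, Fintype.sum_prod_type, Finset.sum_comm]
    refine Finset.sum_congr rfl fun j _ => ?_
    rw [← Finset.card_filter]
    have h2 : (Finset.univ.filter fun i : Fin m => i ≤ j) = Finset.Iic j := by
      ext i
      simp
    rw [h2, Fin.card_Iic]
  rw [h1, Fin.sum_univ_eq_sum_range (fun i => i + 1) m, gauss]

/-- the index set -/
abbrev I (N : ℕ) : Type := {p : Fin (N + 1) × Fin (N + 1) // p.1 ≤ p.2 ∧ p ≠ (0, 0)}

theorem card_I (N : ℕ) : Nat.card (I N) = (N + 1) * (N + 2) / 2 - 1 := by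
  classical
  rw [Nat.card_eq_fintype_card, Fintype.card_subtype]
  have h1 : (Finset.univ.filter fun p : Fin (N + 1) × Fin (N + 1) => p.1 ≤ p.2 ∧ p ≠ (0, 0)) =
      (Finset.univ.filter fun p : Fin (N + 1) × Fin (N + 1) => p.1 ≤ p.2).erase (0, 0) := by
    ext p
    simp only [Finset.mem_filter, Finset.mem_univ, true_and, Finset.mem_erase]
    exact and_comm
  rw [h1, Finset.card_erase_of_mem (by simp)]
  have h2 := card_le (N + 1)
  have h3 : (Finset.univ.filter fun p : Fin (N + 1) × Fin (N + 1) => p.1 ≤ p.2).card =
      (N + 1) * (N + 2) / 2 := by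
    have h4 : (N + 1) * (N + 1 + 1) = (N + 1) * (N + 2) := by ring
    rw [h4] at h2
    omega
  rw [h3]

end HA

open HA

theorem t_HA : S_HA := by
  intro N K M _ _ _ _ hN H A hH h00 htr hc hO
  classical
  -- the columns of `A`
  have hcol : ∀ (j : Fin (N + 1)) (hj : (j : ℕ) + 1 < N + 1) (i : Fin (N + 1)),
      A i j = if i = ⟨(j : ℕ) + 1, hj⟩ then 1 else 0 := fun j hj i => hc j ⟨(j : ℕ) + 1, hj⟩ rfl i
  have h1N : 1 < N + 1 := by omega
  set e1 : Fin (N + 1) := ⟨1, h1N⟩ with he1
  have hrel : ∀ i, H i e1 = ∑ k, A k i * H k 0 := by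
    intro i
    have h5 := hO i
    rw [Matrix.sub_apply, sub_eq_zero, Matrix.mul_apply, Matrix.mul_apply] at h5
    simp only [Matrix.transpose_apply] at h5
    rw [← h5, Finset.sum_eq_single e1]
    · rw [hcol 0 (by simpa using h1N) e1, if_pos (Fin.ext (by simp [he1])), mul_one]
    · intro k _ hk
      rw [hcol 0 (by simpa using h1N) k, if_neg, mul_zero]
      intro hk2
      exact hk (hk2.trans (Fin.ext (by simp [he1])))
    · intro h
      exact absurd (Finset.mem_univ _) h
  have hrel1 : ∀ (i : Fin (N + 1)) (hi : (i : ℕ) + 1 < N + 1),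
      H i e1 = H ⟨(i : ℕ) + 1, hi⟩ 0 := by
    intro i hi
    rw [hrel, Finset.sum_eq_single ⟨(i : ℕ) + 1, hi⟩]
    · rw [hcol i hi, if_pos rfl, one_mul]
    · intro k _ hk
      rw [hcol i hi, if_neg hk, zero_mul]
    · intro h
      exact absurd (Finset.mem_univ _) h
  have hll : A (Fin.last N) (Fin.last N) = ((N + 1 : ℕ) : M) := by
    rw [Matrix.trace, Fin.sum_univ_castSucc] at htr
    rw [← htr]
    have h5 : ∑ i : Fin N, A.diag i.castSucc = 0 := by
      refine Finset.sum_eq_zero fun i _ => ?_
      rw [Matrix.diag_apply, hcol i.castSucc (by simp), if_neg]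
      intro h
      have := congrArg Fin.val h
      simp at this
    rw [h5, zero_add]
    rfl
  have hsym : ∀ i j, H i j = H j i := fun i j => by
    have := congrFun (congrFun hH j) i
    rw [Matrix.transpose_apply] at this
    exact this
  -- the generators
  let x : I N → M := fun p => if h : p.1.1 = 0 ∧ 2 ≤ (p.1.2 : ℕ) then
    A ⟨(p.1.2 : ℕ) - 1, by have := p.1.2.2; omega⟩ (Fin.last N) else H p.1.1 p.1.2
  have hx1 : ∀ (p : I N) (h : p.1.1 = 0 ∧ 2 ≤ (p.1.2 : ℕ)), x p =
      A ⟨(p.1.2 : ℕ) - 1, by have := p.1.2.2; omega⟩ (Fin.last N) := fun p h => dif_pos h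
  have hx2 : ∀ (p : I N), ¬ (p.1.1 = 0 ∧ 2 ≤ (p.1.2 : ℕ)) → x p = H p.1.1 p.1.2 :=
    fun p h => dif_neg h
  have key : IntermediateField.adjoin K (Set.range x) =
      IntermediateField.adjoin K ((Set.range fun p : Fin (N + 1) × Fin (N + 1) => H p.1 p.2) ∪
        Set.range fun p : Fin (N + 1) × Fin (N + 1) => A p.1 p.2) := by
    apply le_antisymm
    · rw [IntermediateField.adjoin_le_iff]
      rintro _ ⟨p, rfl⟩
      by_cases h : p.1.1 = 0 ∧ 2 ≤ (p.1.2 : ℕ)
      · rw [hx1 p h]
        exact IntermediateField.subset_adjoin K _ (Or.inr ⟨(_, _), rfl⟩)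
      · rw [hx2 p h]
        exact IntermediateField.subset_adjoin K _ (Or.inl ⟨(_, _), rfl⟩)
    · set E := IntermediateField.adjoin K (Set.range x) with hE
      have hxE : ∀ p, x p ∈ E := fun p => IntermediateField.subset_adjoin K _ ⟨p, rfl⟩
      -- entries of `H`
      have ha : ∀ i j : Fin (N + 1), 1 ≤ (i : ℕ) → i ≤ j → H i j ∈ E := by
        intro i j hi hij
        have hi0 : i ≠ 0 := by
          rintro rfl
          simp at hi
        have h5 := hxE ⟨(i, j), hij, fun h => hi0 (congrArg Prod.fst h)⟩
        rw [hx2 _ (fun h => hi0 h.1)] at h5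
        exact h5
      have ha' : ∀ i j : Fin (N + 1), 1 ≤ (i : ℕ) → 1 ≤ (j : ℕ) → H i j ∈ E := by
        intro i j hi hj
        rcases le_total i j with h | h
        · exact ha i j hi h
        · rw [hsym]
          exact ha j i hj h
      have hb : H 0 e1 ∈ E := by
        have h6 : ((0 : Fin (N + 1)), e1) ≠ (0, 0) := by
          intro h
          have h7 := congrArg (fun z : Fin (N + 1) × Fin (N + 1) => (z.2 : ℕ)) h
          simp [he1] at h7
        have h5 := hxE ⟨(0, e1), Fin.zero_le _, h6⟩
        rw [hx2 _ (fun h => by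
          have := h.2
          simp [he1] at this)] at h5
        exact h5
      have hj0 : ∀ j : Fin (N + 1), H j 0 ∈ E := by
        intro j
        by_cases hj : (j : ℕ) = 0
        · have : j = 0 := Fin.ext (by simpa using hj)
          rw [this, h00]
          exact one_mem _
        · by_cases hj1 : (j : ℕ) = 1
          · have : j = e1 := Fin.ext (by simpa [he1] using hj1)
            rw [this, hsym]
            exact hb
          · have hi : (j : ℕ) - 1 + 1 < N + 1 := by
              have := j.2
              omega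
            have h5 := hrel1 ⟨(j : ℕ) - 1, by omega⟩ hi
            have h6 : (⟨(j : ℕ) - 1 + 1, hi⟩ : Fin (N + 1)) = j := Fin.ext (by
              show (j : ℕ) - 1 + 1 = j
              omega)
            simp only [h6] at h5
            rw [← h5]
            exact ha' _ _ (by show 1 ≤ (j : ℕ) - 1; omega) (by simp [he1])
      have hHE : ∀ i j, H i j ∈ E := by
        intro i j
        by_cases hi : (i : ℕ) = 0
        · have : i = 0 := Fin.ext (by simpa using hi)
          rw [this, hsym]
          exact hj0 j
        · by_cases hj : (j : ℕ) = 0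
          · have : j = 0 := Fin.ext (by simpa using hj)
            rw [this]
            exact hj0 i
          · exact ha' i j (by omega) (by omega)
      -- entries of `A`
      have hs : ∀ k : Fin N, A k.succ (Fin.last N) ∈ E := by
        intro k
        by_cases hk : (k : ℕ) + 1 = N
        · have : k.succ = Fin.last N := Fin.ext (by simpa using hk)
          rw [this, hll]
          exact natCast_mem _ _
        · have hk2 : (k : ℕ) + 2 < N + 1 := by
            have := k.2
            omega
          have h6 : ((0 : Fin (N + 1)), (⟨(k : ℕ) + 2, hk2⟩ : Fin (N + 1))) ≠ (0, 0) := by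
            intro h
            have h7 := congrArg (fun z : Fin (N + 1) × Fin (N + 1) => (z.2 : ℕ)) h
            simp at h7
          have h5 := hxE ⟨(0, ⟨(k : ℕ) + 2, hk2⟩), Fin.zero_le _, h6⟩
          rw [hx1 _ ⟨rfl, by simp⟩] at h5
          have h7 : (⟨(k : ℕ) + 2 - 1, by omega⟩ : Fin (N + 1)) = k.succ := Fin.ext (by
            simp)
          rw [← h7]
          exact h5
      have h0 : A 0 (Fin.last N) ∈ E := by
        have h5 := hrel (Fin.last N)
        rw [Fin.sum_univ_succ, h00, mul_one] at h5
        have h6 : A 0 (Fin.last N) = H (Fin.last N) e1 -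
            ∑ k : Fin N, A k.succ (Fin.last N) * H k.succ 0 := by
          rw [h5]
          ring
        rw [h6]
        exact sub_mem (hHE _ _) (sum_mem fun k _ => mul_mem (hs k) (hHE _ _))
      have hAE : ∀ i j, A i j ∈ E := by
        intro i j
        by_cases hj : (j : ℕ) + 1 < N + 1
        · rw [hcol j hj]
          split_ifs
          · exact one_mem _
          · exact zero_mem _
        · have : j = Fin.last N := Fin.ext (by
            have := j.2
            simp
            omega)
          rw [this]
          refine Fin.cases h0 (fun k => hs k) i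
      rw [IntermediateField.adjoin_le_iff]
      rintro _ (⟨p, rfl⟩ | ⟨p, rfl⟩)
      · exact hHE _ _
      · exact hAE _ _
  -- transport to `Fin`
  have hcard := card_I N
  let eq : Fin ((N + 1) * (N + 2) / 2 - 1) ≃ I N :=
    (finCongr hcard.symm).trans (Finite.equivFin (I N)).symm
  refine ⟨x ∘ eq, ?_⟩
  rw [Set.range_comp, eq.range_eq_univ, Set.image_univ, key]

end Pool.Agent.T2h8.R3
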