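import Pool.Agent.T2h8.R3.Stm

/-!
# R3, task HB (helper94): transformation of `Hm` and `Bm`
-/

set_option autoImplicit false

open MvPolynomial Pool.Agent.Z15.ME

namespace Pool.Agent.T2h8.R3

section
variable {R : Type} [CommRing R] {n : ℕ}

/-- the matrix of the last two indices of `T3` -/
noncomputable def hbM (c : Fin n × Mon n 3 → R) (i j : Fin n) : Matrix (Fin n) (Fin n) R :=
  Matrix.of fun k l => T3 c i j k l

theorem hb_Hm (c : Fin n × Mon n 3 → R) : Hm c = ∑ i, hbM c i i := by
  ext j k
  rw [Matrix.sum_apply]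
  rfl

theorem hb_Bm (c : Fin n × Mon n 3 → R) (i j : Fin n) :
    Bm c i j = ((Hm c).adjugate * (hbM c i j).transpose).trace := by
  simp only [Bm, Matrix.of_apply, Matrix.trace, Matrix.diag_apply, Matrix.mul_apply, Matrix.transpose_apply, hbM]

theorem hb_act (h : ∀ (A A' : Matrix (Fin n) (Fin n) R) (c : Fin n × Mon n 3 → R) i j k l,
    T3 (act A A' c) i j k l =
      ∑ i', ∑ j', ∑ k', ∑ l', A i i' * A' j' j * A' k' k * A' l' l * T3 c i' j' k' l')
    (A A' : Matrix (Fin n) (Fin n) R) (c : Fin n × Mon n 3 → R) (i j : Fin n) :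
    hbM (act A A' c) i j = ∑ i', ∑ j', (A i i' * A' j' j) • (A'.transpose * hbM c i' j' * A') := by
  ext k l
  rw [Matrix.sum_apply]
  simp only [Matrix.sum_apply, Matrix.smul_apply, smul_eq_mul]
  rw [hbM, Matrix.of_apply, h]
  refine Finset.sum_congr rfl fun i' _ => Finset.sum_congr rfl fun j' _ => ?_
  simp only [Matrix.mul_apply, Matrix.transpose_apply, hbM, Matrix.of_apply, Finset.mul_sum, Finset.sum_mul]
  rw [Finset.sum_comm]
  refine Finset.sum_congr rfl fun k' _ => Finset.sum_congr rfl fun l' _ => ?_
  ring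

end

theorem t_HB (h_T3 : S_T3) : S_HB := by
  intro n R _ c hn
  obtain ⟨hs, ha, hl, hm, -⟩ := h_T3 n R
  have hsym : (Hm c).transpose = Hm c := by
    ext j k
    simp only [Matrix.transpose_apply, Hm, Matrix.of_apply]
    exact Finset.sum_congr rfl fun i _ => (hs c i i k j).2
  refine ⟨hsym, ?_, ?_, ?_, ?_⟩
  · -- the trace
    have h1 : (Bm c).trace = ((Hm c).adjugate * (Hm c).transpose).trace := by
      conv_rhs => rw [hb_Hm c, ← hb_Hm c]
      rw [Matrix.trace]
      simp only [Matrix.diag_apply, hb_Bm]
      rw [← Matrix.trace_sum, ← Matrix.mul_sum, ← Matrix.transpose_sum, ← hb_Hm]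
    rw [h1, hsym, Matrix.adjugate_mul, Matrix.trace_smul, Matrix.trace_one, Fintype.card_fin, smul_eq_mul,
      mul_comm]
  · intro A A' hAA'
    have hA'A : A' * A = 1 := mul_eq_one_comm.1 hAA'
    have hH : Hm (act A A' c) = A'.transpose * Hm c * A' := by
      rw [hb_Hm, hb_Hm]
      simp only [hb_act ha]
      rw [Finset.sum_comm]
      rw [Matrix.mul_sum, Matrix.sum_mul]
      refine Finset.sum_congr rfl fun i' _ => ?_
      rw [Finset.sum_comm]
      have h1 : ∀ j' : Fin n, ∑ i, (A i i' * A' j' i) • (A'.transpose * hbM c i' j' * A')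
          = ((1 : Matrix (Fin n) (Fin n) R) j' i') • (A'.transpose * hbM c i' j' * A') := by
        intro j'
        rw [← Finset.sum_smul, ← hA'A, Matrix.mul_apply]
        congr 1
        exact Finset.sum_congr rfl fun i _ => mul_comm _ _
      simp only [h1]
      rw [Finset.sum_eq_single i']
      · rw [Matrix.one_apply_eq, one_smul]
      · intro j' _ hj'
        rw [Matrix.one_apply_ne hj', zero_smul]
      · intro h2
        exact absurd (Finset.mem_univ _) h2
    refine ⟨hH, ?_⟩
    have hadj : A'.adjugate = A'.det • A := by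
      calc A'.adjugate = A'.adjugate * (A' * A) := by rw [hA'A, mul_one]
        _ = (A'.adjugate * A') * A := by rw [mul_assoc]
        _ = A'.det • A := by rw [Matrix.adjugate_mul, Matrix.smul_mul, one_mul]
    have hadjH : (Hm (act A A' c)).adjugate = A'.det ^ 2 • (A * (Hm c).adjugate * A.transpose) := by
      rw [hH, Matrix.adjugate_mul_distrib, Matrix.adjugate_mul_distrib, ← Matrix.adjugate_transpose, hadj,
        Matrix.transpose_smul, Matrix.smul_mul, Matrix.mul_smul, Matrix.mul_smul, smul_smul, pow_two, mul_assoc]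
    ext i j
    rw [hb_Bm, hadjH, hb_act ha, Matrix.smul_apply, smul_eq_mul, Matrix.smul_mul, Matrix.trace_smul,
      smul_eq_mul]
    congr 1
    have h3 : ∀ X M : Matrix (Fin n) (Fin n) R, (A * X * A.transpose * (A'.transpose * M * A').transpose).trace
        = (X * M.transpose).trace := by
      intro X M
      have h4 : A * X * A.transpose * (A'.transpose * M * A').transpose
          = A * (X * (A' * A).transpose * M.transpose * A') := by
        rw [Matrix.transpose_mul, Matrix.transpose_mul, Matrix.transpose_transpose, Matrix.transpose_mul]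
        simp only [mul_assoc]
      rw [h4, Matrix.trace_mul_comm, hA'A, Matrix.transpose_one, mul_one, mul_assoc, hA'A, mul_one]
    simp only [Matrix.transpose_sum, Matrix.mul_sum, Matrix.trace_sum, Matrix.transpose_smul, Matrix.mul_smul,
      Matrix.trace_smul, h3]
    simp only [← hb_Bm, Matrix.mul_apply, Finset.sum_mul, smul_eq_mul]
    rw [Finset.sum_comm]
    refine Finset.sum_congr rfl fun i' _ => Finset.sum_congr rfl fun j' _ => ?_
    ring
  · intro s
    have hT : ∀ i j k l, T3 (fun p => s * c p) i j k l = s * T3 c i j k l := by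
      intro i j k l
      have h1 := hl c c s 0 i j k l
      simpa using h1
    have hH : Hm (fun p => s * c p) = s • Hm c := by
      ext j k
      simp only [Hm, Matrix.of_apply, Matrix.smul_apply, smul_eq_mul, Finset.mul_sum, hT]
    refine ⟨hH, ?_⟩
    ext i j
    simp only [Bm, Matrix.of_apply, hH, Matrix.adjugate_smul, Matrix.smul_apply, smul_eq_mul, hT, Finset.mul_sum,
      Fintype.card_fin]
    refine Finset.sum_congr rfl fun k _ => Finset.sum_congr rfl fun l _ => ?_
    obtain ⟨m, rfl⟩ : ∃ m, n = m + 1 := ⟨n - 1, by omega⟩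
    rw [Nat.add_sub_cancel, pow_succ]
    ring
  · intro S _ σ
    have hT : ∀ i j k l, T3 (fun p => σ (c p)) i j k l = σ (T3 c i j k l) := hm S σ c
    have hH : Hm (fun p => σ (c p)) = (Hm c).map σ := by
      ext j k
      simp only [Hm, Matrix.of_apply, Matrix.map_apply, map_sum, hT]
    refine ⟨hH, ?_⟩
    have hadj : ((Hm c).map σ).adjugate = (Hm c).adjugate.map σ := (RingHom.map_adjugate σ (Hm c)).symm
    ext i j
    simp only [Bm, Matrix.of_apply, hH, hadj, Matrix.map_apply, map_sum, map_mul, hT]

end Pool.Agent.T2h8.R3
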