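import Pool.Agent.T2h8.R3.Stm

set_option autoImplicit false

open MvPolynomial Pool.Agent.Z15.ME

namespace Pool.Agent.T2h8.R3

/-- the conjugates of a self map: a polynomial in their coefficients is, up to a power of the
determinant, a polynomial in the entries of the matrix -/
lemma polyact (hACT : S_ACT) (n : ℕ) (K E : Type) [Field K] [Field E] [Algebra K E]
    (c : Fin n × Mon n 3 → E) (P : MvPolynomial (Fin n × Mon n 3) K) :
    ∃ (e : ℕ) (W : MvPolynomial (Fin n × Fin n) E), ∀ (S : Type) [Field S] [Algebra E S]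
      [Algebra K S] [IsScalarTower K E S] (g g' : Matrix (Fin n) (Fin n) S), g * g' = 1 →
      aeval (fun p : Fin n × Fin n => g p.1 p.2) W =
        g.det ^ e * aeval (act g g' fun q => algebraMap E S (c q)) P := by
  induction P using MvPolynomial.induction_on with
  | C a =>
    refine ⟨0, C (algebraMap K E a), ?_⟩
    intro S _ _ _ _ g g' _
    rw [aeval_C, aeval_C, pow_zero, one_mul, ← IsScalarTower.algebraMap_apply]
  | add P Q hP hQ =>
    obtain ⟨e, W, hW⟩ := hP
    obtain ⟨e', W', hW'⟩ := hQ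
    refine ⟨e + e', (Matrix.of fun i j => (X (i, j) : MvPolynomial (Fin n × Fin n) E)).det ^ e' * W +
      (Matrix.of fun i j => (X (i, j) : MvPolynomial (Fin n × Fin n) E)).det ^ e * W', ?_⟩
    intro S _ _ _ _ g g' hg
    have hd : aeval (fun p : Fin n × Fin n => g p.1 p.2)
        (Matrix.of fun i j => (X (i, j) : MvPolynomial (Fin n × Fin n) E)).det = g.det := by
      rw [AlgHom.map_det]
      congr 1
      ext i j
      simp
    rw [map_add, map_mul, map_mul, map_pow, map_pow, hd, hW S g g' hg, hW' S g g' hg, map_add]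
    ring
  | mul_X P i hP =>
    obtain ⟨e, W, hW⟩ := hP
    refine ⟨e + 3, W * act (Matrix.of fun i j => (X (i, j) : MvPolynomial (Fin n × Fin n) E))
      (Matrix.of fun i j => (X (i, j) : MvPolynomial (Fin n × Fin n) E)).adjugate
      (fun q => C (c q)) i, ?_⟩
    intro S _ _ _ _ g g' hg
    have hX : ((Matrix.of fun i j => (X (i, j) : MvPolynomial (Fin n × Fin n) E)).map
        ((aeval (fun p : Fin n × Fin n => g p.1 p.2) : MvPolynomial (Fin n × Fin n) E →ₐ[E] S) :
          MvPolynomial (Fin n × Fin n) E →+* S)) = g := by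
      ext i j
      simp
    have hA : ((Matrix.of fun i j => (X (i, j) : MvPolynomial (Fin n × Fin n) E)).adjugate.map
        ((aeval (fun p : Fin n × Fin n => g p.1 p.2) : MvPolynomial (Fin n × Fin n) E →ₐ[E] S) :
          MvPolynomial (Fin n × Fin n) E →+* S)) = g' * (g.det • (1 : Matrix (Fin n) (Fin n) S)) := by
      have h1 := RingHom.map_adjugate
        ((aeval (fun p : Fin n × Fin n => g p.1 p.2) : MvPolynomial (Fin n × Fin n) E →ₐ[E] S) :
          MvPolynomial (Fin n × Fin n) E →+* S)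
        (Matrix.of fun i j => (X (i, j) : MvPolynomial (Fin n × Fin n) E))
      have h2 : g.adjugate = g' * (g.det • (1 : Matrix (Fin n) (Fin n) S)) := by
        have h3 : g' * g = 1 := mul_eq_one_comm.mp hg
        calc g.adjugate = g' * g * g.adjugate := by rw [h3, one_mul]
          _ = g' * (g.det • 1) := by rw [mul_assoc, Matrix.mul_adjugate]
      rw [← h2]
      have h4 : (RingHom.mapMatrix ((aeval (fun p : Fin n × Fin n => g p.1 p.2) :
          MvPolynomial (Fin n × Fin n) E →ₐ[E] S) : MvPolynomial (Fin n × Fin n) E →+* S)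
          (Matrix.of fun i j => (X (i, j) : MvPolynomial (Fin n × Fin n) E))) = g := hX
      rw [h4] at h1
      exact h1
    have hact := congrFun ((hACT n 3 (MvPolynomial (Fin n × Fin n) E)).2.2.2.2.2.2.2.2.2.2 S
      ((aeval (fun p : Fin n × Fin n => g p.1 p.2) : MvPolynomial (Fin n × Fin n) E →ₐ[E] S) :
          MvPolynomial (Fin n × Fin n) E →+* S)
      (Matrix.of fun i j => (X (i, j) : MvPolynomial (Fin n × Fin n) E))
      (Matrix.of fun i j => (X (i, j) : MvPolynomial (Fin n × Fin n) E)).adjugate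
      (fun q => C (c q))) i
    rw [hX, hA] at hact
    obtain ⟨-, -, -, -, -, -, h7, h8, h9, -, -⟩ := hACT n 3 S
    have h10 : act g (g' * (g.det • (1 : Matrix (Fin n) (Fin n) S)))
        (fun q => algebraMap E S (c q)) i = g.det ^ 3 * act g g' (fun q => algebraMap E S (c q)) i := by
      have h11 := h7 ((1 : S) • 1) (g.det • 1) g g' (fun q => algebraMap E S (c q))
      rw [one_smul, one_mul] at h11
      rw [← h11]
      have h12 := congrFun (h9 1 g.det (act g g' fun q => algebraMap E S (c q))) i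
      rw [one_smul] at h12
      rw [h12, one_mul]
    have h13 : (fun p => ((aeval (fun p : Fin n × Fin n => g p.1 p.2) :
        MvPolynomial (Fin n × Fin n) E →ₐ[E] S) : MvPolynomial (Fin n × Fin n) E →+* S) (C (c p))) =
        fun q => algebraMap E S (c q) := by
      funext q
      simp
    rw [h13, h10] at hact
    have hact' : aeval (fun p : Fin n × Fin n => g p.1 p.2)
        (act (Matrix.of fun i j => (X (i, j) : MvPolynomial (Fin n × Fin n) E))
      (Matrix.of fun i j => (X (i, j) : MvPolynomial (Fin n × Fin n) E)).adjugate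
      (fun q => C (c q)) i) = g.det ^ 3 * act g g' (fun q => algebraMap E S (c q)) i := hact.symm
    rw [map_mul, hact', hW S g g' hg, map_mul, aeval_X]
    ring

lemma ext_mul_ext {N : ℕ} {K M : Type} [Field K] [Field M] [Algebra K M]
    (g g' : Matrix (Fin (N + 1)) (Fin (N + 1)) K) (h : g * g' = 1) :
    Z15.ME.ext M g * Z15.ME.ext M g' = 1 := by
  unfold Z15.ME.ext
  rw [← Matrix.map_mul, h]
  exact Matrix.map_one _ (map_zero _) (map_one _)

theorem t_INV3 (hACT : S_ACT) (hDEN : S_DEN) (h_RO : S_RO) : S_INV3 := by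
  intro N K M _ _ _ _ D x hx
  have : Infinite K := inferInstance
  set E := IntermediateField.adjoin K (Set.range (uu D.f)) with hE
  have hxv : x ∈ IntermediateField.adjoin K (Set.range D.f) := by
    rw [D.gen]
    exact IntermediateField.mem_top
  obtain ⟨P, Q, hPQ⟩ := (IntermediateField.mem_adjoin_range_iff K D.f x).1 hxv
  by_cases hQ : aeval D.f Q = 0
  · rw [hPQ, hQ, div_zero]
    exact E.zero_mem
  -- the identity for `g` over `K`
  have hv : ∀ (g : GP N K) (R : MvPolynomial (Ix N 2) K),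
      D.φ g (aeval D.f R) = aeval (act (ext M g.1.1) (ext M g.1.2) D.f) R := by
    intro g R
    have h1 := MvPolynomial.comp_aeval_apply (f := D.f) (D.φ g) R
    have h2 : (fun o => D.φ g (D.f o)) = act (ext M g.1.1) (ext M g.1.2) D.f :=
      funext fun p => D.hφ g p
    rw [h2] at h1
    exact h1
  have hid : ∀ g : GP N K, aeval (act (ext M g.1.1) (ext M g.1.2) D.f) P * aeval D.f Q =
      aeval D.f P * aeval (act (ext M g.1.1) (ext M g.1.2) D.f) Q := by
    intro g
    have h3 : aeval (act (ext M g.1.1) (ext M g.1.2) D.f) Q ≠ 0 := by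
      rw [← hv]
      exact (map_ne_zero (D.φ g)).2 hQ
    have h4 := hx g
    rw [hPQ, map_div₀, hv, hv] at h4
    exact (div_eq_div_iff h3 hQ).1 h4
  -- polynomials
  obtain ⟨e, W, hW⟩ := polyact hACT (N + 1) K M D.f P
  obtain ⟨e', W', hW'⟩ := polyact hACT (N + 1) K M D.f Q
  have hdX : ∀ (S : Type) [Field S] [Algebra M S] (g : Matrix (Fin (N + 1)) (Fin (N + 1)) S),
      aeval (fun p : Fin (N + 1) × Fin (N + 1) => g p.1 p.2)
        (Matrix.of fun i j => (X (i, j) : MvPolynomial (Fin (N + 1) × Fin (N + 1)) M)).det =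
        g.det := by
    intro S _ _ g
    rw [AlgHom.map_det]
    congr 1
    ext i j
    simp
  have hfM : (fun q => algebraMap M M (D.f q)) = D.f := rfl
  have hZ : (Matrix.of fun i j => (X (i, j) : MvPolynomial (Fin (N + 1) × Fin (N + 1)) M)).det ^ e' *
      W * C (aeval D.f Q) -
      (Matrix.of fun i j => (X (i, j) : MvPolynomial (Fin (N + 1) × Fin (N + 1)) M)).det ^ e *
      C (aeval D.f P) * W' = 0 := by
    apply hDEN K M (N + 1)
    intro g hg
    have hg' : g * g⁻¹ = 1 := Matrix.mul_nonsing_inv g (isUnit_iff_ne_zero.2 hg)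
    have h1 := hid ⟨(g, g⁻¹), hg'⟩
    have hgM : ext M g * ext M g⁻¹ = 1 := ext_mul_ext g g⁻¹ hg'
    have h2 := hW M (ext M g) (ext M g⁻¹) hgM
    have h3 := hW' M (ext M g) (ext M g⁻¹) hgM
    have h4 := hdX M (ext M g)
    rw [hfM] at h2 h3
    have h5 : (fun p : Fin (N + 1) × Fin (N + 1) => algebraMap K M (g p.1 p.2)) =
        fun p => (ext M g) p.1 p.2 := rfl
    rw [MvPolynomial.aeval_eq_eval] at h2 h3 h4
    rw [h5, map_sub, map_mul, map_mul, map_mul, map_mul, map_pow, map_pow, eval_C, eval_C]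
    have h2' : eval (fun p : Fin (N + 1) × Fin (N + 1) => (ext M g) p.1 p.2) W =
      (ext M g).det ^ e * aeval (act (ext M g) (ext M g⁻¹) D.f) P := h2
    have h3' : eval (fun p : Fin (N + 1) × Fin (N + 1) => (ext M g) p.1 p.2) W' =
      (ext M g).det ^ e' * aeval (act (ext M g) (ext M g⁻¹) D.f) Q := h3
    have h4' : eval (fun p : Fin (N + 1) × Fin (N + 1) => (ext M g) p.1 p.2)
      (Matrix.of fun i j => (X (i, j) : MvPolynomial (Fin (N + 1) × Fin (N + 1)) M)).det =
        (ext M g).det := h4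
    rw [h2', h3', h4']
    have h1' : aeval (act (ext M g) (ext M g⁻¹) D.f) P * aeval D.f Q =
      aeval D.f P * aeval (act (ext M g) (ext M g⁻¹) D.f) Q := h1
    linear_combination (ext M g).det ^ e * (ext M g).det ^ e' * h1'
  let Ω := AlgebraicClosure M
  obtain ⟨γ, γ', hγ, -, hf⟩ := h_RO N K M Ω D
  have hγ' : γ' * γ = 1 := mul_eq_one_comm.1 hγ
  have hγd : γ.det ≠ 0 := by
    intro h0
    have h3 := congrArg Matrix.det hγ
    rw [Matrix.det_mul, h0, zero_mul, Matrix.det_one] at h3
    exact zero_ne_one h3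
  have hΩ : ∀ g g' : Matrix (Fin (N + 1)) (Fin (N + 1)) Ω, g * g' = 1 →
      aeval (act g g' fun q => algebraMap M Ω (D.f q)) P * algebraMap M Ω (aeval D.f Q) =
      algebraMap M Ω (aeval D.f P) * aeval (act g g' fun q => algebraMap M Ω (D.f q)) Q := by
    intro g g' hg
    have hgd : g.det ≠ 0 := by
      intro h0
      have h3 := congrArg Matrix.det hg
      rw [Matrix.det_mul, h0, zero_mul, Matrix.det_one] at h3
      exact zero_ne_one h3
    have h1 := congrArg (aeval (fun p : Fin (N + 1) × Fin (N + 1) => g p.1 p.2)) hZ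
    rw [map_sub, map_mul, map_mul, map_mul, map_mul, map_pow, map_pow, hdX Ω g, hW Ω g g' hg,
      hW' Ω g g' hg, map_zero, sub_eq_zero, aeval_C, aeval_C] at h1
    have h2 : g.det ^ e * g.det ^ e' ≠ 0 := mul_ne_zero (pow_ne_zero _ hgd) (pow_ne_zero _ hgd)
    apply mul_left_cancel₀ h2
    linear_combination h1
  -- `f` is a conjugate of `u`
  obtain ⟨uE, huE⟩ : ∃ uE : Ix N 2 → E, ∀ p, algebraMap E M (uE p) = uu D.f p :=
    ⟨fun p => ⟨uu D.f p, IntermediateField.subset_adjoin K _ ⟨p, rfl⟩⟩, fun p => rfl⟩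
  have huE' : (fun q => algebraMap E Ω (uE q)) = fun q => algebraMap M Ω (uu D.f q) := by
    funext q
    rw [IsScalarTower.algebraMap_apply E M Ω, huE]
  have hf' : (fun q => algebraMap M Ω (D.f q)) =
      act γ γ' (fun q => algebraMap M Ω (uu D.f q)) := funext hf
  -- a point with `Q ≠ 0`
  obtain ⟨g0, hg0, hQ0⟩ : ∃ g0 : Matrix (Fin (N + 1)) (Fin (N + 1)) K, g0.det ≠ 0 ∧
      aeval (act (ext E g0) (ext E g0⁻¹) uE) Q ≠ 0 := by
    by_contra hcon
    push Not at hcon
    obtain ⟨e1, W1, hW1⟩ := polyact hACT (N + 1) K E uE Q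
    have h1 : W1 = 0 := by
      apply hDEN K E (N + 1)
      intro g hg
      have hg' : g * g⁻¹ = 1 := Matrix.mul_nonsing_inv g (isUnit_iff_ne_zero.2 hg)
      have hgE : ext E g * ext E g⁻¹ = 1 := ext_mul_ext g g⁻¹ hg'
      have h3 := hW1 E (ext E g) (ext E g⁻¹) hgE
      have h4 := hcon g hg
      have h5 : (fun q => algebraMap E E (uE q)) = uE := rfl
      rw [h5, h4, mul_zero, MvPolynomial.aeval_eq_eval] at h3
      exact h3
    have h2 := hW1 Ω γ γ' hγ
    rw [h1, map_zero, huE', ← hf'] at h2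
    have h3 : aeval (fun q => algebraMap M Ω (D.f q)) Q = 0 := by
      rcases mul_eq_zero.mp h2.symm with h | h
      · exact absurd h (pow_ne_zero _ hγd)
      · exact h
    have h6 := MvPolynomial.comp_aeval_apply (f := D.f) (IsScalarTower.toAlgHom K M Ω) Q
    have h7 : algebraMap M Ω (aeval D.f Q) = 0 := h6.trans h3
    exact hQ ((map_eq_zero _).1 h7)
  -- the conclusion
  have hg0' : g0 * g0⁻¹ = 1 := Matrix.mul_nonsing_inv g0 (isUnit_iff_ne_zero.2 hg0)
  have hg0Ω : ext Ω g0 * ext Ω g0⁻¹ = 1 := ext_mul_ext g0 g0⁻¹ hg0'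
  have hsp : act (ext Ω g0 * γ') (γ * ext Ω g0⁻¹) (fun q => algebraMap M Ω (D.f q)) =
      fun p => algebraMap E Ω (act (ext E g0) (ext E g0⁻¹) uE p) := by
    obtain ⟨-, -, -, -, -, -, h7, h8, h9, -, -⟩ := hACT (N + 1) 3 Ω
    have h12 := (hACT (N + 1) 3 E).2.2.2.2.2.2.2.2.2.2 Ω (algebraMap E Ω) (ext E g0) (ext E g0⁻¹) uE
    rw [← h12, hf', h7, huE']
    have e1 : ext Ω g0 * γ' * γ = (ext E g0).map (algebraMap E Ω) := by
      rw [mul_assoc, hγ', mul_one]
      funext i j
      exact IsScalarTower.algebraMap_apply K E Ω (g0 i j)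
    have e2 : γ' * (γ * ext Ω g0⁻¹) = (ext E g0⁻¹).map (algebraMap E Ω) := by
      rw [← mul_assoc, hγ', one_mul]
      funext i j
      exact IsScalarTower.algebraMap_apply K E Ω (g0⁻¹ i j)
    rw [e1, e2]
  have h1 := hΩ (ext Ω g0 * γ') (γ * ext Ω g0⁻¹) (by
    rw [mul_assoc, ← mul_assoc γ', hγ', one_mul, hg0Ω])
  rw [hsp] at h1
  have h2 : ∀ R : MvPolynomial (Ix N 2) K,
      aeval (fun p => algebraMap E Ω (act (ext E g0) (ext E g0⁻¹) uE p)) R =
        algebraMap E Ω (aeval (act (ext E g0) (ext E g0⁻¹) uE) R) := by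
    intro R
    exact (MvPolynomial.comp_aeval_apply (f := act (ext E g0) (ext E g0⁻¹) uE)
      (IsScalarTower.toAlgHom K E Ω) R).symm
  rw [h2, h2] at h1
  have h3 : algebraMap M Ω (algebraMap E M (aeval (act (ext E g0) (ext E g0⁻¹) uE) P) * aeval D.f Q) =
      algebraMap M Ω (aeval D.f P * algebraMap E M (aeval (act (ext E g0) (ext E g0⁻¹) uE) Q)) := by
    rw [map_mul, map_mul, ← IsScalarTower.algebraMap_apply, ← IsScalarTower.algebraMap_apply]
    exact h1
  have h4 := (algebraMap M Ω).injective h3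
  have h5 : algebraMap E M (aeval (act (ext E g0) (ext E g0⁻¹) uE) Q) ≠ 0 := (map_ne_zero _).2 hQ0
  have h6 : x = algebraMap E M (aeval (act (ext E g0) (ext E g0⁻¹) uE) P /
      aeval (act (ext E g0) (ext E g0⁻¹) uE) Q) := by
    rw [hPQ, map_div₀, div_eq_div_iff hQ h5]
    exact h4.symm
  rw [h6]
  exact (aeval (act (ext E g0) (ext E g0⁻¹) uE) P / aeval (act (ext E g0) (ext E g0⁻¹) uE) Q : E).2

end Pool.Agent.T2h8.R3
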