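import Pool.Agent.T2h8.R3.Stm

set_option autoImplicit false

open MvPolynomial Pool.Agent.Z15.ME

namespace Pool.Agent.T2h8.R3

theorem t_KER : S_KER := by
  intro N R _ _ hN Ω hΩ hw
  have hdet : Ω.det = 0 := by
    have h1 : Ω.det = -Ω.det := by
      conv_lhs => rw [← Matrix.det_transpose, hΩ, Matrix.det_neg, Fintype.card_fin]
      rw [(hN.add_one).neg_one_pow]; ring
    have h2 : (2 : R) * Ω.det = 0 := by linear_combination h1
    exact (mul_eq_zero.1 h2).resolve_left two_ne_zero
  have hk : Ω.mulVec (fun i => Ω.adjugate i 0) = 0 := by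
    funext j
    have h1 : (Ω * Ω.adjugate) j 0 = 0 := by
      rw [Matrix.mul_adjugate, hdet, zero_smul]; rfl
    rw [Matrix.mul_apply] at h1
    simpa [Matrix.mulVec, dotProduct] using h1
  refine ⟨hk, fun v hv => ?_⟩
  obtain ⟨i, hi⟩ := Function.ne_iff.1 hw
  have hi' : Ω.adjugate i 0 ≠ 0 := hi
  refine ⟨v i / Ω.adjugate i 0, ?_⟩
  set s := v i / Ω.adjugate i 0 with hs
  set u : Fin (N + 1) → R := fun k => v k - s * Ω.adjugate k 0 with hu
  have hu0 : Ω.mulVec u = 0 := by
    have h1 : u = v - s • (fun k => Ω.adjugate k 0) := by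
      funext k; simp [hu]
    rw [h1, Matrix.mulVec_sub, Matrix.mulVec_smul, hv, hk, smul_zero, sub_zero]
  have hui : u i = 0 := by
    simp only [hu, hs]
    field_simp
    ring
  have hB : (Ω.updateRow 0 (Pi.single i 1)).mulVec u = 0 := by
    funext k
    by_cases hk0 : k = 0
    · subst hk0
      simp [Matrix.mulVec, hui]
    · have h1 := congrFun hu0 k
      simp only [Matrix.mulVec, Pi.zero_apply] at h1 ⊢
      rw [Matrix.updateRow_ne hk0]
      exact h1
  have hdB : (Ω.updateRow 0 (Pi.single i 1)).det ≠ 0 := by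
    rw [← Matrix.adjugate_apply]
    exact hi'
  have hz := Matrix.eq_zero_of_mulVec_eq_zero hdB hB
  funext k
  have h1 := congrFun hz k
  simp only [hu, Pi.zero_apply] at h1
  linear_combination h1

end Pool.Agent.T2h8.R3
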