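import Pool.Agent.T2h8.R3.Stm

/-! Coordinates for the solutions of a system of linear equations (LIN). -/

set_option autoImplicit false

namespace Pool.Agent.T2h8.R3

namespace LIN

/-- evaluation of a linear form at `c` -/
noncomputable def ph {F M ι : Type} [Field F] [Field M] [Algebra F M] [Fintype ι] (c : ι → M) :
    (ι → F) →ₗ[F] M where
  toFun x := ∑ q, algebraMap F M (x q) * c q
  map_add' x y := by
    rw [← Finset.sum_add_distrib]
    exact Finset.sum_congr rfl fun q _ => by rw [Pi.add_apply, map_add, add_mul]
  map_smul' a x := by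
    rw [RingHom.id_apply, Finset.smul_sum]
    exact Finset.sum_congr rfl fun q _ => by
      rw [Pi.smul_apply, smul_eq_mul, map_mul, mul_assoc, Algebra.smul_def]

end LIN

open LIN

theorem t_LIN : S_LIN := by
  intro F M _ _ _ ι κ _ _ L
  classical
  set W : Submodule F (ι → F) := Submodule.span F (Set.range L) with hW
  obtain ⟨τ, a, ha, hs, hl⟩ := exists_linearIndependent' F
    (fun p : ι => W.mkQ (Pi.single p (1 : F)))
  haveI : Finite τ := Finite.of_injective a ha
  haveI : Fintype τ := Fintype.ofFinite τ
  have htop : Submodule.span F (Set.range fun p : ι => W.mkQ (Pi.single p (1 : F))) = ⊤ := by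
    have h1 : (Set.range fun p : ι => W.mkQ (Pi.single p (1 : F))) =
        W.mkQ '' (Set.range fun p : ι => (Pi.single p (1 : F) : ι → F)) := by
      rw [← Set.range_comp]
      rfl
    rw [h1, ← Submodule.map_span]
    have h2 : Submodule.span F (Set.range fun p : ι => (Pi.single p (1 : F) : ι → F)) = ⊤ := by
      have h3 := (Pi.basisFun F ι).span_eq
      have h4 : (fun p : ι => (Pi.single p (1 : F) : ι → F)) = ⇑(Pi.basisFun F ι) := by
        funext p
        rw [Pi.basisFun_apply]
      rw [h4]
      exact h3
    rw [h2, Submodule.map_top, Submodule.range_mkQ]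
  have hcard : Fintype.card τ = Module.finrank F ((ι → F) ⧸ W) := by
    have h1 := finrank_span_eq_card hl
    rw [← h1, hs, htop, finrank_top]
  have hrank : Module.finrank F ((ι → F) ⧸ W) + L.rank = Fintype.card ι := by
    have h1 := Submodule.finrank_quotient_add_finrank W
    rw [Module.finrank_fintype_fun_eq_card] at h1
    rw [← h1]
    congr 1
    rw [Matrix.rank_eq_finrank_span_row]
    rfl
  refine ⟨Finset.univ.image a, ?_, ?_⟩
  · rw [Finset.card_image_of_injective _ ha, Finset.card_univ, hcard, hrank]
  · intro c p
    have h1 : W.mkQ (Pi.single p (1 : F)) ∈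
        Submodule.span F (Set.range ((fun p : ι => W.mkQ (Pi.single p (1 : F))) ∘ a)) := by
      rw [hs, htop]
      trivial
    have h2 : (Set.range ((fun p : ι => W.mkQ (Pi.single p (1 : F))) ∘ a)) =
        W.mkQ '' (Set.range fun t : τ => (Pi.single (a t) (1 : F) : ι → F)) := by
      rw [← Set.range_comp]
      rfl
    rw [h2, ← Submodule.map_span] at h1
    obtain ⟨y, hy, hyp⟩ := h1
    have h3 : (Pi.single p (1 : F) : ι → F) - y ∈ W := by
      rw [← Submodule.ker_mkQ W, LinearMap.mem_ker, map_sub, hyp, sub_self]
    have h4 : (Pi.single p (1 : F) : ι → F) ∈ Submodule.span F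
        (Set.range L ∪ Set.range fun t : τ => (Pi.single (a t) (1 : F) : ι → F)) := by
      rw [Submodule.span_union]
      have h5 : (Pi.single p (1 : F) : ι → F) = ((Pi.single p (1 : F) : ι → F) - y) + y := by ring
      rw [h5]
      exact Submodule.add_mem_sup h3 hy
    have h5 := Submodule.mem_map_of_mem (f := ph (F := F) c) h4
    rw [Submodule.map_span] at h5
    have h6 : ph (F := F) c (Pi.single p 1) = c p := by
      unfold ph
      simp only [LinearMap.coe_mk, AddHom.coe_mk]
      rw [Finset.sum_eq_single p]
      · simp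
      · intro q _ hq
        rw [Pi.single_eq_of_ne hq, map_zero, zero_mul]
      · intro h
        exact absurd (Finset.mem_univ p) h
    rw [h6] at h5
    refine Submodule.span_mono ?_ h5
    rintro _ ⟨x, hx | hx, rfl⟩
    · obtain ⟨k, rfl⟩ := hx
      exact Or.inl ⟨k, rfl⟩
    · obtain ⟨t, rfl⟩ := hx
      refine Or.inr ⟨a t, ?_, ?_⟩
      · simp
      · unfold ph
        simp only [LinearMap.coe_mk, AddHom.coe_mk]
        rw [Finset.sum_eq_single (a t)]
        · simp
        · intro q _ hq
          rw [Pi.single_eq_of_ne hq, map_zero, zero_mul]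
        · intro h
          exact absurd (Finset.mem_univ _) h

end Pool.Agent.T2h8.R3
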