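import Pool.Agent.T2h8.R3.Stm

set_option autoImplicit false

open MvPolynomial Pool.Agent.Z15.ME

namespace Pool.Agent.T2h8.R3

theorem t_RAT (h_SO : S_SO) (h_TDB3 : S_TDB3) (h_INV3 : S_INV3) (h_UU : S_UU) : S_RAT3 := by
  intro N K M _ _ _ _ D
  obtain ⟨q, x, hq, hx⟩ := h_SO N K M D
  refine ⟨q, x, ?_, ?_⟩
  · apply h_TDB3 N K M D (Fin q) x hx
    rw [Nat.card_eq_fintype_card, Fintype.card_fin]
    exact hq
  · intro y
    constructor
    · intro hy
      rw [hx]
      exact h_INV3 N K M D y hy
    · intro hy g
      rw [hx] at hy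
      have h6 : IntermediateField.adjoin K (Set.range (uu D.f)) ≤
          { carrier := {z | D.φ g z = z}
            mul_mem' := by intro a b ha hb; change D.φ g _ = _; rw [map_mul, ha, hb]
            add_mem' := by intro a b ha hb; change D.φ g _ = _; rw [map_add, ha, hb]
            algebraMap_mem' := by intro c; change D.φ g _ = _; rw [AlgHom.commutes]
            inv_mem' := by intro a ha; change D.φ g _ = _; rw [map_inv₀, ha] } := by
        rw [IntermediateField.adjoin_le_iff]
        rintro _ ⟨p, rfl⟩
        exact (h_UU N K M D).2.2.1 g p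
      exact h6 hy

end Pool.Agent.T2h8.R3
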