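import Pool.Agent.T2h8.R3.Stm

/-! Project R3, task RK (helper37): the rank of the linear system. -/

set_option autoImplicit false

open MvPolynomial Pool.Agent.Z15.ME

namespace Pool.Agent.T2h8.R3.RK

open Classical in
/-- unit vectors -/
noncomputable def un {ι : Type} (F : Type) [Field F] (q : ι) : ι → F := fun p => if q = p then 1 else 0

theorem t3sum (hT : S_T3) {n : ℕ} {F M : Type} [Field F] [Field M] [Algebra F M]
    (c : Fin n × Mon n 3 → M) (i j k l : Fin n) :
    ∑ q, algebraMap F M (T3 (un F q) i j k l) * c q = T3 c i j k l := by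
  classical
  obtain ⟨-, -, hlin, -, -⟩ := hT n M
  obtain ⟨-, -, -, hmap, -⟩ := hT n F
  let τ : (Fin n × Mon n 3 → M) →ₗ[M] M :=
    { toFun := fun c => T3 c i j k l
      map_add' := by
        intro x y
        have h := hlin x y 1 1 i j k l
        simp only [one_mul] at h
        exact h
      map_smul' := by
        intro a x
        have h := hlin x x a 0 i j k l
        simp only [zero_mul, add_zero] at h
        exact h }
  have h := LinearMap.pi_apply_eq_sum_univ τ c
  have h2 : T3 c i j k l = τ c := rfl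
  rw [h2, h]
  refine Finset.sum_congr rfl fun q _ => ?_
  rw [smul_eq_mul, mul_comm]
  congr 1
  have h3 := hmap M (algebraMap F M) (un F q) i j k l
  rw [← h3]
  change _ = T3 _ i j k l
  congr 1
  funext p
  unfold un
  split_ifs
  · rw [map_one]
  · rw [map_zero]

end Pool.Agent.T2h8.R3.RK

namespace Pool.Agent.T2h8.R3

open RK

theorem t_RK (h_SUR : S_SUR) (h_T3 : S_T3) : S_RK := by
  classical
  intro n F _ _ hn H hdet hsym
  set L : Matrix ((Fin n × Fin n) ⊕ (Fin n × Fin n)) (Fin n × Mon n 3) F :=
    Matrix.of fun r q => match r with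
      | Sum.inl p => Hm (un F q) p.1 p.2
      | Sum.inr p => ∑ k, ∑ l, H⁻¹ k l * T3 (un F q) p.1 p.2 k l with hL
  have hid : ∀ (M : Type) [Field M] [Algebra F M] (c : Fin n × Mon n 3 → M),
      (∀ j k, ∑ q, algebraMap F M (L (Sum.inl (j, k)) q) * c q = Hm c j k) ∧
      ∀ i j, ∑ q, algebraMap F M (L (Sum.inr (i, j)) q) * c q =
        ∑ k, ∑ l, algebraMap F M (H⁻¹ k l) * T3 c i j k l := by
    intro M _ _ c
    constructor
    · intro j k
      have h1 : Hm c j k = ∑ i, T3 c i i j k := rfl
      rw [h1]
      have h2 : ∀ q, L (Sum.inl (j, k)) q = ∑ i, T3 (un F q) i i j k := fun q => rfl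
      simp only [h2, map_sum, Finset.sum_mul]
      rw [Finset.sum_comm]
      exact Finset.sum_congr rfl fun i _ => t3sum h_T3 c i i j k
    · intro i j
      have h2 : ∀ q, L (Sum.inr (i, j)) q = ∑ k, ∑ l, H⁻¹ k l * T3 (un F q) i j k l := fun q => rfl
      simp only [h2, map_sum, map_mul, Finset.sum_mul]
      rw [Finset.sum_comm]
      refine Finset.sum_congr rfl fun k _ => ?_
      rw [Finset.sum_comm]
      refine Finset.sum_congr rfl fun l _ => ?_
      rw [← t3sum (F := F) h_T3 c i j k l, Finset.mul_sum]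
      exact Finset.sum_congr rfl fun q _ => mul_assoc _ _ _
  refine ⟨L, ?_, hid⟩
  have hF := hid F
  simp only [Algebra.algebraMap_self, RingHom.id_apply] at hF
  -- the range
  obtain ⟨hs3, -, -, -, -⟩ := h_T3 n F
  set E : (Sym2 (Fin n) ⊕ (Fin n × Fin n) → F) →ₗ[F] ((Fin n × Fin n) ⊕ (Fin n × Fin n) → F) :=
    LinearMap.funLeft F F (Sum.map (fun p : Fin n × Fin n => s(p.1, p.2)) id) with hE
  have hEinj : Function.Injective E := by
    apply LinearMap.funLeft_injective_of_surjective
    apply Function.Surjective.sumMap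
    · intro s
      induction s using Sym2.ind with
      | _ x y => exact ⟨(x, y), rfl⟩
    · exact Function.surjective_id
  set Ψ : (Sym2 (Fin n) ⊕ (Fin n × Fin n) → F) →ₗ[F] F :=
    ∑ i : Fin n, LinearMap.proj (Sum.inr (i, i)) -
      ∑ k : Fin n, ∑ l : Fin n, (H⁻¹ k l) • LinearMap.proj (Sum.inl s(k, l)) with hΨ
  have hΨa : ∀ v, Ψ v = ∑ i : Fin n, v (Sum.inr (i, i)) -
      ∑ k : Fin n, ∑ l : Fin n, H⁻¹ k l * v (Sum.inl s(k, l)) := by
    intro v
    rw [hΨ]
    simp [LinearMap.sum_apply]
  have hΨs : Function.Surjective Ψ := by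
    intro a
    have h0 : 0 < n := by omega
    refine ⟨fun z => match z with
      | Sum.inl _ => 0
      | Sum.inr p => if p = (⟨0, h0⟩, ⟨0, h0⟩) then a else 0, ?_⟩
    rw [hΨa]
    simp
  have hrange : LinearMap.range L.mulVecLin = (LinearMap.ker Ψ).map E := by
    ext w
    constructor
    · rintro ⟨c, rfl⟩
      obtain ⟨h1, h2⟩ := hF c
      have hsymc : ∀ j k, Hm c j k = Hm c k j := by
        intro j k
        have h3 : ∀ j k, Hm c j k = ∑ i, T3 c i i j k := fun _ _ => rfl
        rw [h3, h3]
        exact Finset.sum_congr rfl fun i _ => (hs3 c i i j k).2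
      refine ⟨fun z => match z with
        | Sum.inl s => Sym2.lift ⟨fun j k => Hm c j k, hsymc⟩ s
        | Sum.inr p => ∑ k, ∑ l, H⁻¹ k l * T3 c p.1 p.2 k l, ?_, ?_⟩
      · rw [SetLike.mem_coe, LinearMap.mem_ker, hΨa]
        simp only [Sym2.lift_mk]
        rw [sub_eq_zero]
        rw [Finset.sum_comm]
        refine Finset.sum_congr rfl fun k _ => ?_
        rw [Finset.sum_comm]
        refine Finset.sum_congr rfl fun l _ => ?_
        have h3 : Hm c k l = ∑ i, T3 c i i k l := rfl
        rw [h3, Finset.mul_sum]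
      · funext z
        rcases z with p | p
        · exact (h1 p.1 p.2).symm
        · exact (h2 p.1 p.2).symm
    · rintro ⟨v, hv, rfl⟩
      rw [SetLike.mem_coe, LinearMap.mem_ker, hΨa, sub_eq_zero] at hv
      obtain ⟨c, hc1, hc2⟩ := h_SUR n F hn H (Matrix.of fun j k => v (Sum.inl s(j, k)))
        (Matrix.of fun i j => v (Sum.inr (i, j))) hdet hsym
        (by
          ext j k
          simp only [Matrix.transpose_apply, Matrix.of_apply]
          rw [Sym2.eq_swap])
        (by
          have h3 : (Matrix.of fun i j => v (Sum.inr (i, j))).trace = ∑ i, v (Sum.inr (i, i)) := rfl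
          rw [h3, hv]
          unfold Matrix.trace
          refine Finset.sum_congr rfl fun k _ => ?_
          simp only [Matrix.diag_apply, Matrix.mul_apply, Matrix.of_apply]
          refine Finset.sum_congr rfl fun l _ => ?_
          rw [Sym2.eq_swap])
      refine ⟨c, ?_⟩
      obtain ⟨h1, h2⟩ := hF c
      funext z
      rcases z with p | p
      · have h3 := h1 p.1 p.2
        rw [hc1] at h3
        exact h3
      · have h3 := h2 p.1 p.2
        rw [hc2] at h3
        exact h3
  have hk := LinearMap.finrank_range_add_finrank_ker Ψ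
  rw [LinearMap.range_eq_top.2 hΨs, finrank_top, Module.finrank_self, Module.finrank_fintype_fun_eq_card,
    Fintype.card_sum, Sym2.card, Fintype.card_prod, Fintype.card_fin] at hk
  have hr : L.rank = Module.finrank F (LinearMap.ker Ψ) := by
    unfold Matrix.rank
    rw [hrange]
    exact (Submodule.equivMapOfInjective E hEinj (LinearMap.ker Ψ)).finrank_eq.symm
  rw [hr]
  have hch : (n + 1).choose 2 = n * (n + 1) / 2 := by
    rw [Nat.choose_two_right, Nat.add_sub_cancel, mul_comm]
  rw [hch] at hk
  rw [sq]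
  omega

end Pool.Agent.T2h8.R3
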