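import Pool.Agent.T2h8.R3.Stm

/-!
# (SO) generators of the field of the invariants
-/

set_option autoImplicit false

open MvPolynomial Pool.Agent.Z15.ME

namespace Pool.Agent.T2h8.R3

theorem t_SO (h_HA : S_HA) (h_RK : S_RK) (h_LIN : S_LIN) (h_UU : S_UU) (h_AM : S_AM)
    (h_HB : S_HB) : S_SO := by
  classical
  intro N K M _ _ _ _ D
  have hcM : CharZero M := charZero_of_injective_algebraMap (algebraMap K M).injective
  have hn : 1 ≤ N + 1 := Nat.le_add_left 1 N
  have hN := D.hN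
  obtain ⟨-, -, -, u4, u5, u6, u7, -⟩ := h_UU N K M D
  obtain ⟨u, hu⟩ : ∃ u, u = uu D.f := ⟨_, rfl⟩
  rw [← hu] at u4 u5 u6 u7
  rw [← hu]
  obtain ⟨b1, -, -, -, -⟩ := h_HB (N + 1) M u hn
  obtain ⟨a1, -, a3, -, -, -⟩ := h_AM (N + 1) M u hn u5
  obtain ⟨x, hx⟩ := h_HA N K M hN (Hm u) (Am u) b1 u4 a1 u6 u7
  obtain ⟨F, hF⟩ : ∃ F : IntermediateField K M, F = IntermediateField.adjoin K
    ((Set.range fun p : Fin (N + 1) × Fin (N + 1) => Hm u p.1 p.2) ∪
      Set.range fun p : Fin (N + 1) × Fin (N + 1) => Am u p.1 p.2) := ⟨_, rfl⟩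
  rw [← hF] at hx
  have hcF : CharZero F := charZero_of_injective_algebraMap (algebraMap K F).injective
  have hHF : ∀ i j, Hm u i j ∈ F := fun i j => by
    rw [hF]
    exact IntermediateField.subset_adjoin _ _ (Or.inl ⟨(i, j), rfl⟩)
  have hAF : ∀ i j, Am u i j ∈ F := fun i j => by
    rw [hF]
    exact IntermediateField.subset_adjoin _ _ (Or.inr ⟨(i, j), rfl⟩)
  -- the entries of `Hm u` and `Am u` are in `K(u)`
  obtain ⟨E, hE⟩ : ∃ E : IntermediateField K M, E = IntermediateField.adjoin K (Set.range u) :=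
    ⟨_, rfl⟩
  have huE : ∀ p, u p ∈ E := fun p => by
    rw [hE]
    exact IntermediateField.subset_adjoin _ _ ⟨p, rfl⟩
  obtain ⟨u', hu'⟩ : ∃ u' : Ix N 2 → E, u' = fun p => ⟨u p, huE p⟩ := ⟨_, rfl⟩
  have hσ : (fun p => algebraMap E M (u' p)) = u := by
    rw [hu']
    rfl
  have hHE : Hm u = (Hm u').map (algebraMap E M) := by
    have h := ((h_HB (N + 1) E u' hn).2.2.2.2 M (algebraMap E M)).1
    rw [hσ] at h
    exact h
  have hdE : (Hm u').det ≠ 0 := by
    intro h
    apply u5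
    have h1 := RingHom.map_det (algebraMap E M) (Hm u')
    rw [h, map_zero] at h1
    rw [hHE]
    exact h1.symm
  have hAE : Am u = (Am u').map (algebraMap E M) := by
    have h := ((h_AM (N + 1) E u' hn hdE).2.2.2.2.2 M (algebraMap E M)).1
    rw [hσ] at h
    exact h
  have hFE : F ≤ E := by
    rw [hF, IntermediateField.adjoin_le_iff]
    rintro _ (⟨p, rfl⟩ | ⟨p, rfl⟩)
    · show Hm u p.1 p.2 ∈ E
      rw [hHE]
      exact (Hm u' p.1 p.2).2
    · show Am u p.1 p.2 ∈ E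
      rw [hAE]
      exact (Am u' p.1 p.2).2
  -- the linear system
  obtain ⟨H', hH'⟩ : ∃ H' : Matrix (Fin (N + 1)) (Fin (N + 1)) F,
    H' = Matrix.of fun i j => ⟨Hm u i j, hHF i j⟩ := ⟨_, rfl⟩
  have hHm : H'.map (algebraMap F M) = Hm u := by
    ext i j
    rw [hH']
    rfl
  have hdH : H'.det ≠ 0 := by
    intro h
    apply u5
    have h1 := RingHom.map_det (algebraMap F M) H'
    rw [h, map_zero] at h1
    rw [← hHm]
    exact h1.symm
  have hHt : H'.transpose = H' := by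
    ext i j
    have h1 := congrFun (congrFun b1 i) j
    rw [hH']
    exact h1
  obtain ⟨L, hLr, hL⟩ := h_RK (N + 1) F (by omega) H' hdH hHt
  obtain ⟨Z, hZ, hZu⟩ := h_LIN F M (Ix N 2) ((Fin (N + 1) × Fin (N + 1)) ⊕
    (Fin (N + 1) × Fin (N + 1))) L
  obtain ⟨l1, l2⟩ := hL M u
  have hinv : ∀ k l, algebraMap F M (H'⁻¹ k l) = (Hm u)⁻¹ k l := by
    intro k l
    have e1 : (H'⁻¹).map (algebraMap F M) = (Hm u)⁻¹ := by
      have e2 : (H'⁻¹).map (algebraMap F M) * Hm u = 1 := by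
        rw [← hHm, ← Matrix.map_mul, Matrix.nonsing_inv_mul H' (isUnit_iff_ne_zero.2 hdH)]
        exact Matrix.map_one _ (map_zero _) (map_one _)
      exact (Matrix.inv_eq_left_inv e2).symm
    exact congrFun (congrFun e1 k) l
  have hl2 : ∀ i j, ∑ q, algebraMap F M (L (Sum.inr (i, j)) q) * u q = Am u i j := by
    intro i j
    rw [l2, a3]
    exact Finset.sum_congr rfl fun k _ => Finset.sum_congr rfl fun l _ => by rw [hinv]
  -- the generators
  obtain ⟨G, hG⟩ : ∃ G : IntermediateField K M, G = IntermediateField.adjoin K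
    (Set.range x ∪ u '' Z) := ⟨_, rfl⟩
  have hFG : F ≤ G := by
    rw [← hx, hG]
    exact IntermediateField.adjoin.mono _ _ _ Set.subset_union_left
  have huG : ∀ p, u p ∈ G := by
    intro p
    have h1 := hZu u p
    refine Submodule.span_induction (p := fun y _ => y ∈ G) ?_ G.zero_mem
      (fun a b _ _ ha hb => G.add_mem ha hb) ?_ h1
    · rintro _ (⟨k, rfl⟩ | ⟨z, hz, rfl⟩)
      · rcases k with ⟨i, j⟩ | ⟨i, j⟩
        · show ∑ q, algebraMap F M (L (Sum.inl (i, j)) q) * u q ∈ G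
          rw [l1]
          exact hFG (hHF i j)
        · show ∑ q, algebraMap F M (L (Sum.inr (i, j)) q) * u q ∈ G
          rw [hl2]
          exact hFG (hAF i j)
      · rw [hG]
        exact IntermediateField.subset_adjoin _ _ (Or.inr ⟨z, hz, rfl⟩)
    · intro a b _ hb
      show a • b ∈ G
      rw [Algebra.smul_def]
      exact G.mul_mem (hFG a.2) hb
  have hGE : G = E := by
    apply le_antisymm
    · rw [hG, IntermediateField.adjoin_le_iff]
      rintro _ (⟨k, rfl⟩ | ⟨z, -, rfl⟩)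
      · apply hFE
        rw [← hx]
        exact IntermediateField.subset_adjoin _ _ ⟨k, rfl⟩
      · exact huE z
    · rw [hE, IntermediateField.adjoin_le_iff]
      rintro _ ⟨p, rfl⟩
      exact huG p
  -- the number
  obtain ⟨r, hr⟩ : ∃ r, r = (N + 1) * (N + 2) / 2 - 1 := ⟨_, rfl⟩
  have hr1 : 1 ≤ (N + 1) * (N + 2) / 2 := by
    rw [Nat.one_le_div_iff (by norm_num)]
    nlinarith
  refine ⟨(N + 1) * (N + 2) / 2 - 1 + Z.card, Fin.append x (fun i => u (Z.equivFin.symm i)), ?_, ?_⟩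
  · rw [Nat.card_eq_fintype_card, ← hZ]
    have e1 : (N + 1) * (N + 1 + 1) = (N + 1) * (N + 2) := by ring
    rw [e1] at hLr
    omega
  · rw [← hE, ← hGE, hG]
    congr 1
    ext y
    constructor
    · rintro ⟨i, rfl⟩
      refine Fin.addCases (fun i => ?_) (fun i => ?_) i
      · rw [Fin.append_left]
        exact Or.inl ⟨i, rfl⟩
      · rw [Fin.append_right]
        exact Or.inr ⟨_, (Z.equivFin.symm i).2, rfl⟩
    · rintro (⟨i, rfl⟩ | ⟨z, hz, rfl⟩)
      · exact ⟨Fin.castAdd _ i, Fin.append_left _ _ _⟩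
      · refine ⟨Fin.natAdd _ (Z.equivFin ⟨z, hz⟩), ?_⟩
        rw [Fin.append_right, Equiv.symm_apply_apply]

end Pool.Agent.T2h8.R3
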