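import Pool.Agent.T2h8.R3.Stm

/-! All pairs `(H', A')` with the obvious relation occur: an explicit solution. -/

set_option autoImplicit false

open MvPolynomial Pool.Agent.Z15.ME

namespace Pool.Agent.T2h8.R3

namespace Sur35

variable {R : Type} [Field R] {n : ℕ}

/-- the tensors -/
def ten (P Q : Matrix (Fin n) (Fin n) R) (i j k l : Fin n) : R :=
  P i j * Q k l + P i k * Q j l + P i l * Q j k

theorem ten_symm {P Q : Matrix (Fin n) (Fin n) R} (hQ : ∀ i j, Q i j = Q j i) (i j k l : Fin n) :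
    ten P Q i j k l = ten P Q i k j l ∧ ten P Q i j k l = ten P Q i j l k := by
  unfold ten
  constructor
  · rw [hQ k j]
    ring
  · rw [hQ l k]
    ring

theorem ten_tr (P Q : Matrix (Fin n) (Fin n) R) (j k : Fin n) :
    ∑ i, ten P Q i i j k = P.trace * Q j k + (P.transpose * Q) j k + (P.transpose * Q) k j := by
  unfold ten
  rw [Finset.sum_add_distrib, Finset.sum_add_distrib, ← Finset.sum_mul, Matrix.mul_apply,
    Matrix.mul_apply]
  rfl

theorem ten_G (G P Q : Matrix (Fin n) (Fin n) R) (i j : Fin n) :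
    ∑ k, ∑ l, G k l * ten P Q i j k l =
      P i j * (G * Q.transpose).trace + (P * G * Q.transpose) i j +
        (P * G.transpose * Q.transpose) i j := by
  have h1 : ∀ k l, G k l * ten P Q i j k l = P i j * (G k l * Q k l) + P i k * G k l * Q j l +
      P i l * G k l * Q j k := by
    intro k l
    unfold ten
    ring
  simp only [h1, Finset.sum_add_distrib]
  congr 1
  · congr 1
    · rw [Matrix.trace, Finset.mul_sum]
      refine Finset.sum_congr rfl fun k _ => ?_
      rw [Matrix.diag_apply, Matrix.mul_apply, Finset.mul_sum]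
      rfl
    · rw [Finset.sum_comm, Matrix.mul_apply]
      refine Finset.sum_congr rfl fun l _ => ?_
      rw [Matrix.mul_apply, Finset.sum_mul]
      rfl
  · rw [Matrix.mul_apply]
    refine Finset.sum_congr rfl fun k _ => ?_
    rw [Matrix.mul_apply, Finset.sum_mul]
    rfl

end Sur35

open Sur35 in
theorem t_SUR (_h_T3 : S_T3) (h_SYM : S_SYM) : S_SUR := by
  intro n R _ _ hn H H' A' hH hHs hHs' htr
  have hn0 : (n : R) ≠ 0 := by exact_mod_cast (by omega : n ≠ 0)
  have hn2 : (n : R) + 2 ≠ 0 := by exact_mod_cast (by omega : n + 2 ≠ 0)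
  have hn4 : (n : R) + 4 ≠ 0 := by exact_mod_cast (by omega : n + 4 ≠ 0)
  have hu : IsUnit H.det := isUnit_iff_ne_zero.2 hH
  obtain ⟨G, hG⟩ : ∃ G, G = H⁻¹ := ⟨_, rfl⟩
  have hGH : G * H = 1 := by rw [hG]; exact Matrix.nonsing_inv_mul _ hu
  have hHG : H * G = 1 := by rw [hG]; exact Matrix.mul_nonsing_inv _ hu
  have hGs : G.transpose = G := by rw [hG, Matrix.transpose_nonsing_inv, hHs]
  obtain ⟨τ, hτ⟩ : ∃ τ, τ = A'.trace := ⟨_, rfl⟩
  obtain ⟨Q, hQ⟩ : ∃ Q : Matrix (Fin n) (Fin n) R, Q = H' - (τ / ((n : R) + 2)) • H -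
    ((n : R) + 2)⁻¹ • (H * A' + A'.transpose * H) := ⟨_, rfl⟩
  have hQs : Q.transpose = Q := by
    rw [hQ, Matrix.transpose_sub, Matrix.transpose_sub, Matrix.transpose_smul,
      Matrix.transpose_smul, Matrix.transpose_add, Matrix.transpose_mul, Matrix.transpose_mul,
      Matrix.transpose_transpose, hHs, hHs', add_comm (A'.transpose * H)]
  have hGQ : (G * Q).trace = 0 := by
    have h1 : (G * (H * A')).trace = τ := by rw [← Matrix.mul_assoc, hGH, Matrix.one_mul, hτ]
    have h2 : (G * (A'.transpose * H)).trace = τ := by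
      rw [Matrix.trace_mul_comm, Matrix.mul_assoc, hHG, Matrix.mul_one, Matrix.trace_transpose, hτ]
    have h3 : (G * H).trace = n := by
      rw [hGH, Matrix.trace_one, Fintype.card_fin]
    rw [hQ, Matrix.mul_sub, Matrix.mul_sub, Matrix.mul_smul, Matrix.mul_smul, Matrix.mul_add,
      Matrix.trace_sub, Matrix.trace_sub, Matrix.trace_smul, Matrix.trace_smul, Matrix.trace_add,
      h1, h2, h3, hG, ← htr, ← hτ, smul_eq_mul, smul_eq_mul]
    field_simp
    ring
  obtain ⟨T, hT⟩ : ∃ T : Matrix (Fin n) (Fin n) R,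
    T = (((n : R) + 2) / (n * ((n : R) + 4))) • Q := ⟨_, rfl⟩
  have hTs : T.transpose = T := by rw [hT, Matrix.transpose_smul, hQs]
  have hGT : (G * T).trace = 0 := by
    rw [hT, Matrix.mul_smul, Matrix.trace_smul, hGQ, smul_zero]
  obtain ⟨B, hB⟩ : ∃ B : Matrix (Fin n) (Fin n) R,
    B = ((n : R) + 2)⁻¹ • (A' - (2 : R) • (G * T)) := ⟨_, rfl⟩
  have hBtr : B.trace = τ / ((n : R) + 2) := by
    rw [hB, Matrix.trace_smul, Matrix.trace_sub, Matrix.trace_smul, hGT, smul_zero, sub_zero, ← hτ,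
      smul_eq_mul, div_eq_inv_mul]
  have hBH : B.transpose * H = ((n : R) + 2)⁻¹ • (A'.transpose * H - (2 : R) • T) := by
    rw [hB, Matrix.transpose_smul, Matrix.transpose_sub, Matrix.transpose_smul,
      Matrix.transpose_mul, hTs, hGs, Matrix.smul_mul, Matrix.sub_mul, Matrix.smul_mul,
      Matrix.mul_assoc, hGH, Matrix.mul_one]
  have hHB : (B.transpose * H).transpose = ((n : R) + 2)⁻¹ • (H * A' - (2 : R) • T) := by
    rw [hBH, Matrix.transpose_smul, Matrix.transpose_sub, Matrix.transpose_smul,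
      Matrix.transpose_mul, Matrix.transpose_transpose, hTs, hHs]
  have hHs2 : ∀ i j, H i j = H j i := fun i j => by
    conv_lhs => rw [← hHs]
    rfl
  have hTs2 : ∀ i j, T i j = T j i := fun i j => by
    conv_lhs => rw [← hTs]
    rfl
  obtain ⟨c, hc⟩ := h_SYM n R (fun i j k l => ten B H i j k l + ten 1 T i j k l) (by
    intro i j k l
    have h1 := ten_symm (P := B) hHs2 i j k l
    have h2 := ten_symm (P := 1) hTs2 i j k l
    exact ⟨by rw [h1.1, h2.1], by rw [h1.2, h2.2]⟩)
  refine ⟨c, ?_, fun i j => ?_⟩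
  · ext j k
    change ∑ i, T3 c i i j k = H' j k
    simp only [hc]
    rw [Finset.sum_add_distrib, ten_tr, ten_tr, Matrix.trace_one, Fintype.card_fin,
      Matrix.transpose_one, Matrix.one_mul, hTs2 k j, hBtr]
    have h1 : (B.transpose * H) k j = (((n : R) + 2)⁻¹ • (H * A' - (2 : R) • T)) j k := by
      rw [← hHB]
      rfl
    rw [h1, hBH]
    have h2 : Q j k = H' j k - (τ / ((n : R) + 2)) * H j k -
        ((n : R) + 2)⁻¹ * ((H * A') j k + (A'.transpose * H) j k) := by
      rw [hQ]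
      rfl
    have h3 : T j k = (((n : R) + 2) / (n * ((n : R) + 4))) * Q j k := by
      rw [hT]
      rfl
    simp only [Matrix.smul_apply, Matrix.sub_apply, smul_eq_mul]
    rw [h3, h2]
    field_simp
    ring
  · simp only [hc, ← hG]
    simp only [mul_add, Finset.sum_add_distrib]
    rw [ten_G, ten_G, hHs, hTs, hGs, Matrix.mul_assoc B, hGH, Matrix.mul_one, Matrix.one_mul,
      Matrix.trace_one, Fintype.card_fin, hGT, hB]
    simp only [Matrix.smul_apply, Matrix.sub_apply, smul_eq_mul]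
    field_simp
    ring

end Pool.Agent.T2h8.R3
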