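import Pool.Agent.T2h8.R3.Stm

/-!
# R3, task SYM (helper94): every symmetric tensor occurs
-/

set_option autoImplicit false

open MvPolynomial Pool.Agent.Z15.ME

namespace Pool.Agent.T2h8.R3

/-- the multi-index `e_j + e_k + e_l` -/
noncomputable def syE {n : ℕ} (j k l : Fin n) : Fin n →₀ ℕ :=
  Finsupp.single j 1 + Finsupp.single k 1 + Finsupp.single l 1

theorem syE_degree {n : ℕ} (j k l : Fin n) : (syE j k l).degree = 3 := by
  rw [syE, map_add, map_add, Finsupp.degree_single, Finsupp.degree_single, Finsupp.degree_single]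

theorem syE_mem {n : ℕ} (j k l a : Fin n) (h : syE j k l a ≠ 0) : a = j ∨ a = k ∨ a = l := by
  by_contra hne
  push Not at hne
  apply h
  simp only [syE, Finsupp.add_apply, Finsupp.single_apply]
  rw [if_neg (Ne.symm hne.1), if_neg (Ne.symm hne.2.1), if_neg (Ne.symm hne.2.2), add_zero, add_zero]

theorem syE_swap1 {n : ℕ} (j k l : Fin n) : syE j k l = syE k j l := by
  rw [syE, syE, add_comm (Finsupp.single j 1)]

theorem syE_swap2 {n : ℕ} (j k l : Fin n) : syE j k l = syE j l k := by
  rw [syE, syE, add_right_comm]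

/-- the sums of two unit vectors -/
theorem sy_two {n : ℕ} (k l k' l' : Fin n)
    (h : (Finsupp.single k 1 + Finsupp.single l 1 : Fin n →₀ ℕ) = Finsupp.single k' 1 + Finsupp.single l' 1) :
    (k' = k ∧ l' = l) ∨ (k' = l ∧ l' = k) := by
  by_cases hk : k' = k
  · subst hk
    have h1 := add_left_cancel h
    exact Or.inl ⟨rfl, ((Finsupp.single_left_inj (one_ne_zero)).1 h1).symm⟩
  · by_cases hl : k' = l
    · subst hl
      rw [add_comm] at h
      have h1 := add_left_cancel h
      exact Or.inr ⟨rfl, ((Finsupp.single_left_inj (one_ne_zero)).1 h1).symm⟩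
    · exfalso
      have h1 := DFunLike.congr_fun h k'
      simp only [Finsupp.add_apply, Finsupp.single_apply] at h1
      rw [if_neg (Ne.symm hk), if_neg (Ne.symm hl), if_pos trivial] at h1
      omega

/-- a function which is symmetric in the three indices depends only on `e_j + e_k + e_l` -/
theorem sy_fun {n : ℕ} {R : Type} (F : Fin n → Fin n → Fin n → R) (h1 : ∀ j k l, F j k l = F k j l)
    (h2 : ∀ j k l, F j k l = F j l k) (j k l j' k' l' : Fin n) (h : syE j k l = syE j' k' l') :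
    F j k l = F j' k' l' := by
  have hcan : ∀ a b b₁ c c₁ : Fin n, syE a b c = syE a b₁ c₁ → F a b c = F a b₁ c₁ := by
    intro a b b₁ c c₁ h3
    rw [syE, syE, add_assoc, add_assoc] at h3
    have h4 := add_left_cancel h3
    rcases sy_two b c b₁ c₁ h4 with ⟨rfl, rfl⟩ | ⟨rfl, rfl⟩
    · rfl
    · exact h2 _ _ _
  have hmem : syE j k l j' ≠ 0 := by
    rw [h]
    simp only [syE, Finsupp.add_apply, Finsupp.single_apply, if_true]
    omega
  rcases syE_mem j k l j' hmem with rfl | rfl | rfl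
  · exact hcan _ _ _ _ _ h
  · rw [h1]
    rw [syE_swap1] at h
    exact hcan _ _ _ _ _ h
  · rw [h2, h1]
    rw [syE_swap2, syE_swap1] at h
    exact hcan _ _ _ _ _ h

section
variable {R : Type} [CommRing R] {n : ℕ}

/-- the factor `α!` -/
noncomputable def syR (j k l : Fin n) : ℕ :=
  ((Finsupp.single j 1 : Fin n →₀ ℕ) k + 1) * ((Finsupp.single j 1 + Finsupp.single k 1 : Fin n →₀ ℕ) l + 1)

theorem sy_T3 (c : Fin n × Mon n 3 → R) (i j k l : Fin n) :
    T3 c i j k l = c (i, ⟨syE j k l, syE_degree j k l⟩) * (syR j k l : R) := by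
  rw [T3, MvPolynomial.constantCoeff_eq, coeff_pderiv, coeff_pderiv, coeff_pderiv, zero_add]
  have h1 : coeff (Finsupp.single j 1 + Finsupp.single k 1 + Finsupp.single l 1) (Pool.Agent.Z15.ME.cmp c i)
      = c (i, ⟨syE j k l, syE_degree j k l⟩) := by
    rw [Pool.Agent.Z15.ME.cmp, pol, coeff_sum, Finset.sum_eq_single (⟨syE j k l, syE_degree j k l⟩ : Mon n 3)]
    · rw [coeff_monomial, if_pos]
      rfl
    · intro β _ hβ
      rw [coeff_monomial, if_neg]
      intro h2
      exact hβ (Subtype.ext h2)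
    · intro h2
      exact absurd (Finset.mem_univ _) h2
  rw [h1, syR]
  simp only [Finsupp.coe_zero, Pi.zero_apply, Nat.cast_zero, zero_add, mul_one]
  push_cast
  ring

end

theorem t_SYM (h_T3 : S_T3) : S_SYM := by
  intro n R _ _ D hD
  classical
  obtain ⟨hs, -, -, -, -⟩ := h_T3 n R
  -- the factor is symmetric
  have hR : ∀ j k l : Fin n, ((syR j k l : ℕ) : R) = (syR k j l : ℕ) ∧ ((syR j k l : ℕ) : R) = (syR j l k : ℕ) := by
    intro j k l
    have h1 := (hs (fun _ => 1) j j k l).1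
    have h2 := (hs (fun _ => 1) j j k l).2
    rw [sy_T3, sy_T3, one_mul, one_mul] at h1 h2
    exact ⟨h1, h2⟩
  have hR0 : ∀ j k l : Fin n, ((syR j k l : ℕ) : R) ≠ 0 := by
    intro j k l
    rw [Nat.cast_ne_zero, syR]
    exact Nat.mul_ne_zero (Nat.succ_ne_zero _) (Nat.succ_ne_zero _)
  let F : Fin n → Fin n → Fin n → Fin n → R := fun i j k l => D i j k l / (syR j k l : ℕ)
  have hF1 : ∀ i j k l, F i j k l = F i k j l := by
    intro i j k l
    simp only [F]
    rw [(hD i j k l).1, (hR j k l).1]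
  have hF2 : ∀ i j k l, F i j k l = F i j l k := by
    intro i j k l
    simp only [F]
    rw [(hD i j k l).2, (hR j k l).2]
  let c : Fin n × Mon n 3 → R := fun p =>
    if h : ∃ t : Fin n × Fin n × Fin n, syE t.1 t.2.1 t.2.2 = p.2.1 then
      F p.1 h.choose.1 h.choose.2.1 h.choose.2.2 else 0
  refine ⟨c, ?_⟩
  intro i j k l
  rw [sy_T3]
  have h : ∃ t : Fin n × Fin n × Fin n, syE t.1 t.2.1 t.2.2 = syE j k l := ⟨(j, k, l), rfl⟩
  have h3 : c (i, ⟨syE j k l, syE_degree j k l⟩) = F i j k l := by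
    have h4 : c (i, ⟨syE j k l, syE_degree j k l⟩) = F i h.choose.1 h.choose.2.1 h.choose.2.2 := by
      simp only [c]
      rw [dif_pos h]
    rw [h4]
    exact sy_fun (F i) (hF1 i) (hF2 i) _ _ _ _ _ _ h.choose_spec
  rw [h3]
  simp only [F]
  exact div_mul_cancel₀ _ (hR0 j k l)

end Pool.Agent.T2h8.R3
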