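import Pool.Agent.T2h8.R3.Stm

/-! The third derivatives. -/

set_option autoImplicit false

open MvPolynomial Pool.Agent.Z15.ME

namespace Pool.Agent.T2h8.R3

namespace T35

section
variable {R : Type} [CommRing R] {n : ℕ}

/-- the exponent -/
noncomputable def al (j k l : Fin n) : Mon n 3 :=
  ⟨Finsupp.single j 1 + Finsupp.single k 1 + Finsupp.single l 1, by
    rw [map_add, map_add, Finsupp.degree_single, Finsupp.degree_single, Finsupp.degree_single]⟩

/-- the factor -/
noncomputable def rr (j k l : Fin n) : ℕ :=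
  ((Finsupp.single j 1 : Fin n →₀ ℕ) k + 1) *
    ((Finsupp.single j 1 + Finsupp.single k 1 : Fin n →₀ ℕ) l + 1)

theorem rr_ne (j k l : Fin n) : rr j k l ≠ 0 := by
  unfold rr
  positivity

theorem ccp (p : MvPolynomial (Fin n) R) (j k l : Fin n) :
    constantCoeff (pderiv j (pderiv k (pderiv l p))) = (rr j k l : R) * coeff (al j k l).1 p := by
  rw [constantCoeff_eq, coeff_pderiv, coeff_pderiv, coeff_pderiv, zero_add]
  unfold al rr
  simp only [Finsupp.coe_zero, Pi.zero_apply]
  push_cast
  ring

theorem T3_eq (c : Fin n × Mon n 3 → R) (i j k l : Fin n) :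
    T3 c i j k l = (rr j k l : R) * c (i, al j k l) := by
  unfold T3 Pool.Agent.Z15.ME.cmp
  rw [ccp]
  congr 1
  unfold pol
  rw [coeff_sum, Finset.sum_eq_single (al j k l)]
  · rw [coeff_monomial, if_pos rfl]
  · intro β _ hβ
    rw [coeff_monomial, if_neg fun h => hβ (Subtype.ext h)]
  · intro h
    exact absurd (Finset.mem_univ _) h

theorem pderiv_comm' (i j : Fin n) (p : MvPolynomial (Fin n) R) :
    pderiv i (pderiv j p) = pderiv j (pderiv i p) := by
  ext m
  rw [coeff_pderiv, coeff_pderiv, coeff_pderiv, coeff_pderiv]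
  have h1 : m + Finsupp.single i 1 + Finsupp.single j 1 =
      m + Finsupp.single j 1 + Finsupp.single i 1 := add_right_comm _ _ _
  rw [h1, mul_assoc, mul_assoc]
  congr 1
  by_cases h : i = j
  · subst h
    rfl
  · have h2 : (m + Finsupp.single i 1 : Fin n →₀ ℕ) j = m j := by
      rw [Finsupp.add_apply, Finsupp.single_eq_of_ne (Ne.symm h), add_zero]
    have h3 : (m + Finsupp.single j 1 : Fin n →₀ ℕ) i = m i := by
      rw [Finsupp.add_apply, Finsupp.single_eq_of_ne h, add_zero]
    rw [h2, h3]
    ring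

theorem linX (A : Matrix (Fin n) (Fin n) R) (i : Fin n) : lin A (X i) = ∑ j, C (A i j) * X j :=
  aeval_X _ _

theorem pderiv_lin (A : Matrix (Fin n) (Fin n) R) (j : Fin n) (p : MvPolynomial (Fin n) R) :
    pderiv j (lin A p) = ∑ j', C (A j' j) * lin A (pderiv j' p) := by
  classical
  induction p using MvPolynomial.induction_on with
  | C a =>
    have h1 : lin A (C a) = C a := by
      unfold lin
      rw [aeval_C]
      rfl
    rw [h1, pderiv_C]
    simp
  | add p q hp hq =>
    rw [map_add, map_add, hp, hq, ← Finset.sum_add_distrib]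
    exact Finset.sum_congr rfl fun j' _ => by rw [map_add, map_add, mul_add]
  | mul_X p i hp =>
    rw [map_mul, pderiv_mul, hp]
    have h1 : pderiv j (lin A (X i)) = C (A i j) := by
      rw [linX, map_sum, Finset.sum_eq_single j]
      · rw [pderiv_C_mul, pderiv_X_self, mul_one]
      · intro b _ hb
        rw [pderiv_C_mul, pderiv_X_of_ne hb, mul_zero]
      · intro h
        exact absurd (Finset.mem_univ _) h
    have h2 : ∀ j', C (A j' j) * lin A (pderiv j' (p * X i)) =
        C (A j' j) * lin A (pderiv j' p) * lin A (X i) +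
          if j' = i then C (A i j) * lin A p else 0 := by
      intro j'
      rw [pderiv_mul, map_add, map_mul, map_mul]
      by_cases h : j' = i
      · subst h
        rw [pderiv_X_self, map_one, if_pos rfl]
        ring
      · rw [pderiv_X_of_ne (Ne.symm h), map_zero, if_neg h]
        ring
    rw [Finset.sum_congr rfl fun j' _ => h2 j', Finset.sum_add_distrib, Finset.sum_ite_eq', h1,
      Finset.sum_mul]
    simp
    ring

theorem cc_lin (A : Matrix (Fin n) (Fin n) R) (p : MvPolynomial (Fin n) R) :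
    constantCoeff (lin A p) = constantCoeff p := by
  induction p using MvPolynomial.induction_on with
  | C a =>
    have h1 : lin A (C a) = C a := by
      unfold lin
      rw [aeval_C]
      rfl
    rw [h1]
  | add p q hp hq => rw [map_add, map_add, map_add, hp, hq]
  | mul_X p i hp =>
    rw [map_mul, map_mul, map_mul, linX, constantCoeff_X, mul_zero, map_sum]
    rw [Finset.sum_eq_zero, mul_zero]
    intro j _
    rw [map_mul, constantCoeff_X, mul_zero]

theorem sum_rev (F : Fin n → Fin n → Fin n → R) :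
    ∑ l', ∑ k', ∑ j', F l' k' j' = ∑ j', ∑ k', ∑ l', F l' k' j' :=
  calc ∑ l', ∑ k', ∑ j', F l' k' j' = ∑ k', ∑ l', ∑ j', F l' k' j' := Finset.sum_comm
    _ = ∑ k', ∑ j', ∑ l', F l' k' j' := Finset.sum_congr rfl fun _ _ => Finset.sum_comm
    _ = _ := Finset.sum_comm

theorem ccp_lin (A : Matrix (Fin n) (Fin n) R) (p : MvPolynomial (Fin n) R) (j k l : Fin n) :
    constantCoeff (pderiv j (pderiv k (pderiv l (lin A p)))) =
      ∑ j', ∑ k', ∑ l', A j' j * A k' k * A l' l *
        constantCoeff (pderiv j' (pderiv k' (pderiv l' p))) := by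
  have h1 : pderiv j (pderiv k (pderiv l (lin A p))) = ∑ l', C (A l' l) * ∑ k', C (A k' k) *
      ∑ j', C (A j' j) * lin A (pderiv j' (pderiv k' (pderiv l' p))) := by
    rw [pderiv_lin, map_sum, map_sum]
    refine Finset.sum_congr rfl fun l' _ => ?_
    rw [pderiv_C_mul, pderiv_C_mul, pderiv_lin, map_sum]
    congr 1
    refine Finset.sum_congr rfl fun k' _ => ?_
    rw [pderiv_C_mul, pderiv_lin]
  rw [h1]
  simp only [map_sum, map_mul, constantCoeff_C, cc_lin, Finset.mul_sum]
  rw [sum_rev]
  refine Finset.sum_congr rfl fun j' _ => Finset.sum_congr rfl fun k' _ =>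
    Finset.sum_congr rfl fun l' _ => ?_
  ring

theorem exists_al (α : Mon n 3) : ∃ j k l : Fin n, α = al j k l := by
  have step : ∀ (d : ℕ) (β : Fin n →₀ ℕ), β.degree = d + 1 →
      ∃ (i : Fin n) (γ : Fin n →₀ ℕ), γ.degree = d ∧ β = γ + Finsupp.single i 1 := by
    intro d β hβ
    have h1 : ∃ i, β i ≠ 0 := by
      by_contra hcon
      push Not at hcon
      have : β = 0 := Finsupp.ext hcon
      rw [this, map_zero] at hβ
      omega
    obtain ⟨i, hi⟩ := h1
    have h2 : β - Finsupp.single i 1 + Finsupp.single i 1 = β :=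
      tsub_add_cancel_of_le (Finsupp.single_le_iff.2 (Nat.one_le_iff_ne_zero.2 hi))
    refine ⟨i, β - Finsupp.single i 1, ?_, h2.symm⟩
    have h3 := congrArg Finsupp.degree h2
    rw [map_add, Finsupp.degree_single, hβ] at h3
    omega
  obtain ⟨l, β, hβ, h1⟩ := step 2 α.1 α.2
  obtain ⟨k, γ, hγ, h2⟩ := step 1 β hβ
  obtain ⟨j, ε, hε, h3⟩ := step 0 γ hγ
  refine ⟨j, k, l, Subtype.ext ?_⟩
  have h4 : ε = 0 := (Finsupp.degree_eq_zero_iff ε).1 hε
  change α.1 = Finsupp.single j 1 + Finsupp.single k 1 + Finsupp.single l 1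
  rw [h1, h2, h3, h4, zero_add]

end

end T35

open T35 in
theorem t_T3 : S_T3 := by
  intro n R _
  refine ⟨fun c i j k l => ⟨?_, ?_⟩, fun A A' c i j k l => ?_, fun c c' a b i j k l => ?_,
    fun S _ σ c i j k l => ?_, fun i α => ?_⟩
  · unfold T3
    rw [pderiv_comm' j k]
  · unfold T3
    rw [pderiv_comm' k l]
  · rw [T3_eq]
    have h1 : ∀ i', (rr j k l : R) * act1 A' (fun α => c (i', α)) (al j k l) =
        ∑ j', ∑ k', ∑ l', A' j' j * A' k' k * A' l' l * T3 c i' j' k' l' := by
      intro i'
      unfold act1 cf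
      rw [← ccp, ccp_lin]
      rfl
    unfold act
    dsimp only
    rw [Finset.mul_sum]
    refine Finset.sum_congr rfl fun i' _ => ?_
    rw [mul_left_comm, h1 i']
    simp only [Finset.mul_sum]
    refine Finset.sum_congr rfl fun j' _ => Finset.sum_congr rfl fun k' _ =>
      Finset.sum_congr rfl fun l' _ => ?_
    ring
  · rw [T3_eq, T3_eq, T3_eq]
    ring
  · rw [T3_eq, T3_eq, map_mul, map_natCast]
  · obtain ⟨j, k, l, h⟩ := exists_al α
    exact ⟨j, k, l, rr j k l, rr_ne j k l, fun c => by rw [T3_eq, h]⟩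

end Pool.Agent.T2h8.R3
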