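import Pool.Agent.T2h8.R3.Stm

set_option autoImplicit false

open MvPolynomial Pool.Agent.Z15.ME

namespace Pool.Agent.T2h8.R3

theorem t_TDB3 (hACT : S_ACT) (hTRD : S_TRD) (h_RO : S_RO) : S_TDB3 := by
  intro N K M _ _ _ _ D κ _ x hx hcard
  let Ω := AlgebraicClosure M
  obtain ⟨γ, γ', hγ, -, hf⟩ := h_RO N K M Ω D
  let z : κ ⊕ (Fin (N + 1) × Fin (N + 1)) → Ω :=
    Sum.elim (fun i => algebraMap M Ω (x i)) fun p : Fin (N + 1) × Fin (N + 1) => γ p.1 p.2
  let L : IntermediateField K Ω := IntermediateField.adjoin K (Set.range z)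
  have hxL : ∀ i, algebraMap M Ω (x i) ∈ L := fun i =>
    IntermediateField.subset_adjoin K _ ⟨Sum.inl i, rfl⟩
  have hcL : ∀ i j, γ i j ∈ L := fun i j =>
    IntermediateField.subset_adjoin K _ ⟨Sum.inr (i, j), rfl⟩
  have huL : ∀ p, algebraMap M Ω (uu D.f p) ∈ L := by
    intro p
    have h1 : uu D.f p ∈ IntermediateField.adjoin K (Set.range x) := by
      rw [hx]
      exact IntermediateField.subset_adjoin K _ ⟨p, rfl⟩
    have h2 : IntermediateField.adjoin K (Set.range x) ≤ L.comap (IsScalarTower.toAlgHom K M Ω) := by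
      rw [IntermediateField.adjoin_le_iff]
      rintro _ ⟨i, rfl⟩
      exact hxL i
    exact h2 h1
  have hACT' := (hACT (N + 1) 3 L).2.2.2.2.2.2.2.2.2.2 Ω L.val.toRingHom
  have hfL : ∀ p, algebraMap M Ω (D.f p) ∈ L := by
    intro p
    rw [hf p]
    let γL : Matrix (Fin (N + 1)) (Fin (N + 1)) L := fun i j => ⟨γ i j, hcL i j⟩
    have h1 : γL.map L.val.toRingHom = γ := by
      ext i j
      rfl
    have hdet : IsUnit γL.det := by
      rw [isUnit_iff_ne_zero]
      intro h0
      have h2 : γ.det = 0 := by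
        rw [← h1]
        have := RingHom.map_det L.val.toRingHom γL
        rw [h0, map_zero] at this
        exact this.symm
      have h3 := congrArg Matrix.det hγ
      rw [Matrix.det_mul, h2, zero_mul, Matrix.det_one] at h3
      exact zero_ne_one h3
    have h4 : (γL⁻¹).map L.val.toRingHom = γ' := by
      have h5 : γ * (γL⁻¹).map L.val.toRingHom = 1 := by
        rw [← h1, ← Matrix.map_mul, Matrix.mul_nonsing_inv _ hdet]
        exact Matrix.map_one _ (map_zero _) (map_one _)
      have h6 : γ' * γ = 1 := mul_eq_one_comm.mp hγ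
      calc (γL⁻¹).map L.val.toRingHom = γ' * γ * (γL⁻¹).map L.val.toRingHom := by rw [h6, one_mul]
        _ = γ' := by rw [mul_assoc, h5, mul_one]
    have h7 := congrFun (hACT' γL γL⁻¹ (fun p => ⟨algebraMap M Ω (uu D.f p), huL p⟩)) p
    rw [h1, h4] at h7
    have h8 : act γ γ' (fun p => algebraMap M Ω (uu D.f p)) p =
        ((act γL γL⁻¹ (fun p => (⟨algebraMap M Ω (uu D.f p), huL p⟩ : L)) p : L) : Ω) := h7
    rw [h8]
    exact (act γL γL⁻¹ (fun p => (⟨algebraMap M Ω (uu D.f p), huL p⟩ : L)) p).2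
  have hind : AlgebraicIndependent K (fun p => algebraMap M Ω (D.f p)) :=
    D.ind.map' (f := IsScalarTower.toAlgHom K M Ω) (algebraMap M Ω).injective
  have hz := (hTRD K Ω (κ ⊕ (Fin (N + 1) × Fin (N + 1))) (Ix N 2) z
    (fun p => algebraMap M Ω (D.f p)) hind hfL (by
      rw [Nat.card_sum, ← hcard]
      apply le_of_eq
      congr 1
      simp [sq])).1
  have h9 : AlgebraicIndependent K (fun i => algebraMap M Ω (x i)) := hz.comp Sum.inl Sum.inl_injective
  exact AlgebraicIndependent.of_comp (IsScalarTower.toAlgHom K M Ω) h9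

end Pool.Agent.T2h8.R3
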