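import Pool.Agent.T2h8.R3.Stm
import Pool.Agent.Z15.ME.T_ACT
import Pool.Agent.Z15.ME.T_POL

/-!
# (UU) the normalised self map
-/

set_option autoImplicit false

open MvPolynomial Pool.Agent.Z15.ME

namespace Pool.Agent.T2h8.R3

namespace UU

variable {R : Type} [Field R] {N : ℕ}

theorem act_smul {n d : ℕ} {R : Type} [CommRing R] (A A' : Matrix (Fin n) (Fin n) R) (s : R)
    (c : Fin n × Mon n d → R) : act A A' (fun p => s * c p) = fun p => s * act A A' c p := by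
  have h := (Pool.Agent.Z15.ME.ACT.t_ACT Pool.Agent.Z15.ME.POL.t_POL n d R).2.2.2.2.2.2.2.2.2.1 A A' c c s 0
  simpa using h

/-- the action of multiples of matrices -/
theorem act_scale (A A' : Matrix (Fin (N + 1)) (Fin (N + 1)) R) (s t : R) (c : Ix N 2 → R) :
    act (s • A) (t • A') c = fun p => s * t ^ 3 * act A A' c p := by
  have h1 := (Pool.Agent.Z15.ME.ACT.t_ACT Pool.Agent.Z15.ME.POL.t_POL (N + 1) 3 R).2.2.2.2.2.2.1 (s • 1) (t • 1) A A' c
  rw [Matrix.smul_mul, one_mul, Matrix.mul_smul, mul_one] at h1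
  rw [← h1]
  exact (Pool.Agent.Z15.ME.ACT.t_ACT Pool.Agent.Z15.ME.POL.t_POL (N + 1) 3 R).2.2.2.2.2.2.2.2.1 s t (act A A' c)

end UU

open UU in
theorem t_UU (h_FR : S_FR) (h_GN : S_GN) (h_AM : S_AM) (h_HB : S_HB) (h_KER : S_KER) : S_UU := by
  intro N K M _ _ _ _ D
  have hcM : CharZero M := charZero_of_injective_algebraMap (algebraMap K M).injective
  obtain ⟨gH, gw, gF, gww⟩ := h_GN N K M D.hN D.hev D.f D.ind
  have hn : 1 ≤ N + 1 := Nat.le_add_left 1 N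
  obtain ⟨F, hF⟩ : ∃ F, F = Fr D.f := ⟨_, rfl⟩
  rw [← hF] at gF
  have hFu : IsUnit F.det := isUnit_iff_ne_zero.2 gF
  have hFF : F * F⁻¹ = 1 := Matrix.mul_nonsing_inv F hFu
  have hFF' : F⁻¹ * F = 1 := Matrix.nonsing_inv_mul F hFu
  have hF0 : ∀ i, F i 0 = wv D.f i := fun i => by
    rw [hF]
    simp [Fr]
  obtain ⟨-, -, hB3, hB4, -⟩ := h_HB (N + 1) M D.f hn
  obtain ⟨-, aM2, -, aM4, -, -⟩ := h_AM (N + 1) M D.f hn gH
  -- the frame
  have hHu0 : Hm (u0 D.f) = F.transpose * Hm D.f * F := by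
    unfold u0
    rw [← hF]
    exact (hB3 F⁻¹ F hFF').1
  have hAu0 : Am (u0 D.f) = F⁻¹ * Am D.f * F := by
    unfold u0
    rw [← hF]
    exact (aM4 F⁻¹ F hFF').2.1
  have hOu0 : Ow (u0 D.f) = F.transpose * Ow D.f * F := by
    unfold u0
    rw [← hF]
    exact (aM4 F⁻¹ F hFF').2.2
  have hdu0 : (Hm (u0 D.f)).det ≠ 0 := by
    unfold u0
    rw [← hF]
    exact (aM4 F⁻¹ F hFF').1
  have hhs : hs D.f ≠ 0 := by
    have e1 : hs D.f = wv D.f ⬝ᵥ (Hm D.f).mulVec (wv D.f) := by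
      unfold hs
      rw [hHu0, mul_assoc, Matrix.mul_apply]
      unfold dotProduct
      refine Finset.sum_congr rfl fun i _ => ?_
      rw [Matrix.transpose_apply, hF0, Matrix.mul_apply]
      unfold Matrix.mulVec dotProduct
      congr 1
      exact Finset.sum_congr rfl fun j _ => by rw [hF0]
    rw [e1]
    exact gww
  have huu : uu D.f = fun p => (hs D.f)⁻¹ * u0 D.f p := rfl
  have hHuu : Hm (uu D.f) = (hs D.f)⁻¹ • Hm (u0 D.f) := by
    rw [huu]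
    exact ((h_HB (N + 1) M (u0 D.f) hn).2.2.2.1 _).1
  obtain ⟨-, -, -, -, aN5, -⟩ := h_AM (N + 1) M (u0 D.f) hn hdu0
  have hAuu : Am (uu D.f) = F⁻¹ * Am D.f * F := by
    rw [huu, (aN5 _ (inv_ne_zero hhs)).1, hAu0]
  have hOuu : Ow (uu D.f) = (hs D.f)⁻¹ • (F.transpose * Ow D.f * F) := by
    rw [huu, (aN5 _ (inv_ne_zero hhs)).2, hOu0]
  refine ⟨hF ▸ gF, hhs, ?_, ?_, ?_, ?_, ?_, ?_⟩
  · -- invariance
    intro g p
    obtain ⟨χ, hχ, hFr⟩ := h_FR N K M D g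
    rw [← hF] at hFr
    have hg1 : ext M g.1.1 * ext M g.1.2 = 1 := by
      rw [← Matrix.map_mul, g.2]
      exact Matrix.map_one _ (map_zero _) (map_one _)
    have hg2 : ext M g.1.2 * ext M g.1.1 = 1 := mul_eq_one_comm.1 hg1
    obtain ⟨G, hG⟩ : ∃ G, G = F⁻¹.map (D.φ g) := ⟨_, rfl⟩
    have hGF : G * F.map (D.φ g) = 1 := by
      rw [hG, ← Matrix.map_mul, hFF']
      exact Matrix.map_one _ (map_zero _) (map_one _)
    have hG2 : G = χ⁻¹ • (F⁻¹ * ext M g.1.2) := by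
      have e1 : F.map (D.φ g) * (χ⁻¹ • (F⁻¹ * ext M g.1.2)) = 1 := by
        rw [hFr, Matrix.smul_mul, Matrix.mul_smul, smul_smul, mul_inv_cancel₀ hχ, one_smul,
          mul_assoc, ← mul_assoc F, hFF, one_mul, hg1]
      calc G = G * (F.map (D.φ g) * (χ⁻¹ • (F⁻¹ * ext M g.1.2))) := by rw [e1, mul_one]
        _ = _ := by rw [← mul_assoc, hGF, one_mul]
    have hφf : (fun p => D.φ g (D.f p)) = act (ext M g.1.1) (ext M g.1.2) D.f :=
      funext fun p => D.hφ g p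
    have hu0 : ∀ p, D.φ g (u0 D.f p) = χ⁻¹ * χ ^ 3 * u0 D.f p := by
      intro p
      have e1 := congrFun ((Pool.Agent.Z15.ME.ACT.t_ACT Pool.Agent.Z15.ME.POL.t_POL (N + 1) 3 M).2.2.2.2.2.2.2.2.2.2 M (D.φ g).toRingHom
        F⁻¹ F D.f) p
      have e2 : (fun p => (D.φ g).toRingHom (D.f p)) = act (ext M g.1.1) (ext M g.1.2) D.f := hφf
      rw [e2] at e1
      have e3 : (D.φ g) (act F⁻¹ F D.f p) = act (F⁻¹.map (D.φ g)) (F.map (D.φ g))
        (act (ext M g.1.1) (ext M g.1.2) D.f) p := e1.symm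
      unfold u0
      rw [← hF, e3, (Pool.Agent.Z15.ME.ACT.t_ACT Pool.Agent.Z15.ME.POL.t_POL (N + 1) 3 M).2.2.2.2.2.2.1, ← hG, hG2, hFr, Matrix.smul_mul,
        Matrix.mul_smul, mul_assoc, hg2, mul_one, ← mul_assoc, hg2, one_mul, act_scale]
    have hhs2 : D.φ g (hs D.f) = χ⁻¹ * χ ^ 3 * hs D.f := by
      have e1 := ((h_HB (N + 1) M (u0 D.f) hn).2.2.2.2 M (D.φ g).toRingHom).1
      have e2 : (fun p => (D.φ g).toRingHom (u0 D.f p)) = fun p => χ⁻¹ * χ ^ 3 * u0 D.f p :=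
        funext hu0
      rw [e2, ((h_HB (N + 1) M (u0 D.f) hn).2.2.2.1 _).1] at e1
      have e3 := congrFun (congrFun e1 0) 0
      exact e3.symm
    have hκ : χ⁻¹ * χ ^ 3 ≠ 0 := mul_ne_zero (inv_ne_zero hχ) (pow_ne_zero _ hχ)
    show D.φ g ((hs D.f)⁻¹ * u0 D.f p) = (hs D.f)⁻¹ * u0 D.f p
    rw [map_mul, map_inv₀, hhs2, hu0]
    field_simp
  · rw [hHuu, Matrix.smul_apply, smul_eq_mul]
    exact inv_mul_cancel₀ hhs
  · rw [hHuu, Matrix.det_smul]
    exact mul_ne_zero (pow_ne_zero _ (inv_ne_zero hhs)) hdu0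
  · intro j j' hj i
    rw [hAuu]
    have e1 : ∀ i, (Am D.f * F) i j = F i j' := by
      intro i
      rw [Matrix.mul_apply, hF]
      show ∑ k, Am D.f i k * ((Am D.f ^ (j : ℕ)).mulVec (wv D.f)) k =
        ((Am D.f ^ (j' : ℕ)).mulVec (wv D.f)) i
      rw [← hj, pow_succ', ← Matrix.mulVec_mulVec]
      rfl
    rw [mul_assoc, Matrix.mul_apply]
    have e2 : ∑ k, F⁻¹ i k * (Am D.f * F) k j = (F⁻¹ * F) i j' := by
      rw [Matrix.mul_apply]
      exact Finset.sum_congr rfl fun k _ => by rw [e1]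
    rw [e2, hFF', Matrix.one_apply]
  · intro i
    have hk := (h_KER N M D.hev (Ow D.f) aM2 gw).1
    rw [hOuu, Matrix.smul_apply, mul_assoc, Matrix.mul_apply]
    have e1 : ∀ k, (Ow D.f * F) k 0 = 0 := by
      intro k
      rw [Matrix.mul_apply]
      have e2 := congrFun hk k
      have e3 : ∑ l, Ow D.f k l * F l 0 = (Ow D.f).mulVec (fun i => (Ow D.f).adjugate i 0) k := by
        unfold Matrix.mulVec dotProduct
        exact Finset.sum_congr rfl fun l _ => by rw [hF0]; rfl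
      rw [e3, e2]
      rfl
    rw [Finset.sum_eq_zero (fun k _ => by rw [e1, mul_zero]), smul_zero]
  · intro p
    rw [huu, ← hF, act_smul]
    have e1 : act F F⁻¹ (u0 D.f) = D.f := by
      unfold u0
      rw [← hF, (Pool.Agent.Z15.ME.ACT.t_ACT Pool.Agent.Z15.ME.POL.t_POL (N + 1) 3 M).2.2.2.2.2.2.1, hFF,
        (Pool.Agent.Z15.ME.ACT.t_ACT Pool.Agent.Z15.ME.POL.t_POL (N + 1) 3 M).2.2.2.2.2.2.2.1]
    rw [e1]
    show D.f p = hs D.f * ((hs D.f)⁻¹ * D.f p)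
    rw [mul_inv_cancel_left₀ hhs]

end Pool.Agent.T2h8.R3
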