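import Pool.Agent.Z15.ME.Stm2

/-!
# MP_82c165_ag: the moduli space of self maps of `P^N` of degree `3` is rational for `N` even

Everything is in terms of the definitions of project ME of helper15 (`Pool.Agent.Z15.ME.Stm`): `Ix N 2`
the coordinates of the space of the self maps of degree `3` in `n = N + 1` variables, `act A A' c` the
self map `x ↦ A c(A' x)`, `GP N K` the pairs of inverse matrices, `Acts N 3 φ f`: `φ g f = g f g⁻¹`.

Let `f` be the generic self map, `Hm f` the Hessian matrix of its divergence (a quadratic form),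
`Am f = ∑ (Hm⁻¹)_kl ∂_k ∂_l ∂_j f_i` (a matrix with trace `n`, `Am (g f g⁻¹) = g (Am f) g⁻¹`),
`Ow f = Hm Am - Amᵀ Hm` (skew; `n` is odd, so it has a kernel vector `wv f`),
`Fr f = (w, A w, …, A^N w)` (a frame, canonical up to a scalar), `uu f` = the self map
`Fr⁻¹ f Fr`, divided by a scalar such that `Hm (uu f) 0 0 = 1`. Its coefficients are invariant and
generate the field of the invariants. For `u = uu f`, `H = Hm u`, `A = Am u` we have `A e_j = e_{j+1}`
(`j < N`), `H_00 = 1`, and `Ow u e_0 = 0`, which says `H_i1 = H_{i+1,0}` for `i < N` and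
`H_N1 = ∑ a_k H_k0`, `a_k = A_kN`, `a_N = n`. For given `H`, `A` the self map `u` satisfies a system of
`n(n+1)/2 + n^2 - 1` independent linear equations. So the field of invariants is generated by
`#Ix - n^2` elements, which is its transcendence degree.
-/

set_option autoImplicit false

open MvPolynomial Pool.Agent.Z15.ME

namespace Pool.Agent.T2h8.R3

section
variable {R : Type} [CommRing R] {n : ℕ}

/-- the third derivatives -/
noncomputable def T3 (c : Fin n × Mon n 3 → R) (i j k l : Fin n) : R :=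
  constantCoeff (pderiv j (pderiv k (pderiv l (cmp c i))))

/-- the Hessian matrix of the divergence -/
noncomputable def Hm (c : Fin n × Mon n 3 → R) : Matrix (Fin n) (Fin n) R :=
  Matrix.of fun j k => ∑ i, T3 c i i j k

/-- `det Hm` times the matrix `Am` -/
noncomputable def Bm (c : Fin n × Mon n 3 → R) : Matrix (Fin n) (Fin n) R :=
  Matrix.of fun i j => ∑ k, ∑ l, (Hm c).adjugate k l * T3 c i j k l

end

section
variable {R : Type} [Field R] {n : ℕ}

/-- the matrix `∑ (Hm⁻¹)_kl ∂_j ∂_k ∂_l f_i` -/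
noncomputable def Am (c : Fin n × Mon n 3 → R) : Matrix (Fin n) (Fin n) R :=
  (Hm c).det⁻¹ • Bm c

/-- the skew part of `Am`, as a bilinear form -/
noncomputable def Ow (c : Fin n × Mon n 3 → R) : Matrix (Fin n) (Fin n) R :=
  Hm c * Am c - (Am c).transpose * Hm c

end

section
variable {R : Type} [Field R] {N : ℕ}

/-- a kernel vector of `Ow` -/
noncomputable def wv (c : Ix N 2 → R) : Fin (N + 1) → R := fun i => (Ow c).adjugate i 0

/-- the frame `(w, A w, …, A^N w)` -/
noncomputable def Fr (c : Ix N 2 → R) : Matrix (Fin (N + 1)) (Fin (N + 1)) R :=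
  Matrix.of fun i j => ((Am c ^ (j : ℕ)).mulVec (wv c)) i

/-- `Fr⁻¹ c Fr` -/
noncomputable def u0 (c : Ix N 2 → R) : Ix N 2 → R := act (Fr c)⁻¹ (Fr c) c

/-- the scalar -/
noncomputable def hs (c : Ix N 2 → R) : R := Hm (u0 c) 0 0

/-- the normalised self map -/
noncomputable def uu (c : Ix N 2 → R) : Ix N 2 → R := fun p => (hs c)⁻¹ * u0 c p

end

/-- the generic self map of degree `3` in an odd number of variables, with the action -/
structure D3 (N : ℕ) (K M : Type) [Field K] [CharZero K] [Field M] [Algebra K M] where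
  hN : 2 ≤ N
  hev : Even N
  f : Ix N 2 → M
  ind : AlgebraicIndependent K f
  gen : IntermediateField.adjoin K (Set.range f) = ⊤
  φ : GP N K → M →ₐ[K] M
  hφ : Acts N 3 φ f

/-- (T3) the third derivatives. Proof: (1) partial derivatives commute; (2) chain rule for
`x ↦ A c(A' x)` (or check it on monomials; S_EVA and S_POL, S_ACT of ME may help); (3), (4) clear;
(5) `x^α` has the constant third derivative `α!` if `α = e_j + e_k + e_l`, and `0` for the other
monomials of degree three. -/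
def S_T3 : Prop := ∀ (n : ℕ) (R : Type) [CommRing R],
  (∀ (c : Fin n × Mon n 3 → R) i j k l, T3 c i j k l = T3 c i k j l ∧ T3 c i j k l = T3 c i j l k) ∧
  (∀ (A A' : Matrix (Fin n) (Fin n) R) (c : Fin n × Mon n 3 → R) i j k l, T3 (act A A' c) i j k l =
    ∑ i', ∑ j', ∑ k', ∑ l', A i i' * A' j' j * A' k' k * A' l' l * T3 c i' j' k' l') ∧
  (∀ (c c' : Fin n × Mon n 3 → R) (a b : R) i j k l,
    T3 (fun p => a * c p + b * c' p) i j k l = a * T3 c i j k l + b * T3 c' i j k l) ∧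
  (∀ (S : Type) [CommRing S] (σ : R →+* S) (c : Fin n × Mon n 3 → R) i j k l,
    T3 (fun p => σ (c p)) i j k l = σ (T3 c i j k l)) ∧
  ∀ (i : Fin n) (α : Mon n 3), ∃ (j k l : Fin n) (r : ℕ), r ≠ 0 ∧
    ∀ c : Fin n × Mon n 3 → R, T3 c i j k l = r * c (i, α)

/-- (SYM) every symmetric tensor occurs. Proof: put `c (i, α) = D i j k l / α!` where
`α = e_j + e_k + e_l` (choose such `j, k, l` for each `α`). -/
def S_SYM : Prop := ∀ (n : ℕ) (R : Type) [Field R] [CharZero R] (D : Fin n → Fin n → Fin n → Fin n → R),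
  (∀ i j k l, D i j k l = D i k j l ∧ D i j k l = D i j l k) →
  ∃ c : Fin n × Mon n 3 → R, ∀ i j k l, T3 c i j k l = D i j k l

/-- (HB) transformation of `Hm` and `Bm`, from `S_T3`. Proof: `∑_i A_ii' A'_j'i = [i' = j']` for
`A' A = 1`. `adj (A'ᵀ H A') = adj A' adj H (adj A')ᵀ` and `adj A' = det A' • A` as `A A' = 1`.
`tr (Bm c) = ∑ adj(H)_kl H_kl = n det H`. -/
def S_HB : Prop := ∀ (n : ℕ) (R : Type) [CommRing R] (c : Fin n × Mon n 3 → R), 1 ≤ n →
  (Hm c).transpose = Hm c ∧ (Bm c).trace = n * (Hm c).det ∧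
  (∀ A A' : Matrix (Fin n) (Fin n) R, A * A' = 1 → Hm (act A A' c) = A'.transpose * Hm c * A' ∧
    Bm (act A A' c) = A'.det ^ 2 • (A * Bm c * A')) ∧
  (∀ s : R, Hm (fun p => s * c p) = s • Hm c ∧ Bm (fun p => s * c p) = s ^ n • Bm c) ∧
  ∀ (S : Type) [CommRing S] (σ : R →+* S), Hm (fun p => σ (c p)) = (Hm c).map σ ∧
    Bm (fun p => σ (c p)) = (Bm c).map σ

/-- (AM) transformation of `Am`, `Ow` and the scalars, from `S_HB`. -/
def S_AM : Prop := ∀ (n : ℕ) (R : Type) [Field R] (c : Fin n × Mon n 3 → R), 1 ≤ n → (Hm c).det ≠ 0 →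
  (Am c).trace = n ∧ (Ow c).transpose = - Ow c ∧
  (∀ i j, Am c i j = ∑ k, ∑ l, (Hm c)⁻¹ k l * T3 c i j k l) ∧
  (∀ A A' : Matrix (Fin n) (Fin n) R, A * A' = 1 → (Hm (act A A' c)).det ≠ 0 ∧
    Am (act A A' c) = A * Am c * A' ∧ Ow (act A A' c) = A'.transpose * Ow c * A') ∧
  (∀ s : R, s ≠ 0 → Am (fun p => s * c p) = Am c ∧ Ow (fun p => s * c p) = s • Ow c) ∧
  ∀ (S : Type) [Field S] (σ : R →+* S), Am (fun p => σ (c p)) = (Am c).map σ ∧
    Ow (fun p => σ (c p)) = (Ow c).map σ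

/-- (SUR) for given `H` all pairs `(H', A')` with the obvious relation occur; from `S_SYM`. Proof: let
`G = H⁻¹`. It is enough that the linear map `D ↦ ((∑_i D_iijk), (∑_kl G_kl D_ijkl))` from the tensors
symmetric in `j, k, l` is onto the space of the pairs (symmetric matrix `H'`, matrix `A'`) with
`tr A' = tr (G H')`; dually, let `S` be symmetric and `B` a matrix with
`∑ S_jk D_iijk + ∑ B_ij G_kl D_ijkl = 0` for all `D`. Taking `D_ijkl = δ_{i i0} x_j x_k x_l` gives
`x_i S(x,x) + (B x)_i G(x,x) = 0` for all vectors `x` and all `i`, where `(B x)_i = ∑_j B_ij x_j`.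
As `G ≠ 0` it follows that `x_j (B x)_i = x_i (B x)_j` (polynomial identity, cancel `G`), so `B = -s 1`
(`n ≥ 2`), and then `S = s G`. So the annihilator is spanned by `(G, -1)`, the obvious relation. -/
def S_SUR : Prop := ∀ (n : ℕ) (R : Type) [Field R] [CharZero R], 2 ≤ n →
  ∀ H H' A' : Matrix (Fin n) (Fin n) R, H.det ≠ 0 → H.transpose = H → H'.transpose = H' →
  A'.trace = (H⁻¹ * H').trace →
  ∃ c : Fin n × Mon n 3 → R, Hm c = H' ∧ ∀ i j, ∑ k, ∑ l, H⁻¹ k l * T3 c i j k l = A' i j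

/-- (EX) an example, from `S_SUR`, `S_AM`. Proof: take `Hm c = 1`, `Am c = A` (`S_SUR` with
`H = H' = 1`), `A = n E_00 + ∑_i (E_{i,i+1} + E_{i+1,i}) + Λ`, `Λ = ∑_{s=1}^{N/2} (E_{2s,2s-1} -
E_{2s-1,2s})`. Then `Ow c = A - Aᵀ = 2 Λ`, whose adjugate is `4^{N/2} E_00` (row and column `0` of `Λ`
are zero, the complementary minor is a direct sum of `2 × 2` skew blocks), so `wv c = 4^{N/2} e_0`; `A`
is tridiagonal with nonzero entries `A_{i+1,i}` (`1` or `2`), so `(w, A w, …, A^N w)` is upper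
triangular with nonzero diagonal. -/
def S_EX : Prop := ∀ N : ℕ, 2 ≤ N → Even N → ∃ c : Ix N 2 → ℚ, (Hm c).det ≠ 0 ∧ wv c ≠ 0 ∧
  (Fr c).det ≠ 0 ∧ wv c ⬝ᵥ (Hm c).mulVec (wv c) ≠ 0

/-- (GN) the generic self map, from `S_EX`, `S_AM`, `S_HB`. Proof: `f` is algebraically independent over
`ℚ`. With `δ = det Hm`, the quantities `δ`, `δ^(n-1) wv = (column 0 of adj (Hm Bm - Bmᵀ Hm))`,
`δ^? det Fr` and `δ^? w·Hm w` are polynomials with rational coefficients in the coefficients of the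
self map (images of the corresponding elements of the polynomial ring under `X ↦ f`, and under
`X ↦ c`), and these polynomials are not zero by the example. -/
def S_GN : Prop := ∀ (N : ℕ) (K M : Type) [Field K] [CharZero K] [Field M] [Algebra K M],
  2 ≤ N → Even N → ∀ f : Ix N 2 → M, AlgebraicIndependent K f →
  (Hm f).det ≠ 0 ∧ wv f ≠ 0 ∧ (Fr f).det ≠ 0 ∧ wv f ⬝ᵥ (Hm f).mulVec (wv f) ≠ 0

/-- (KER) linear algebra: an odd skew matrix with nonzero first column of the adjugate has this column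
as kernel vector, unique up to scalars. Proof: `det Ω = det (-Ωᵀ) = - det Ω`, so `det Ω = 0` and
`Ω adj Ω = 0`; `adj Ω ≠ 0`, so the rank of `Ω` is at least `n - 1` (some minor is nonzero). -/
def S_KER : Prop := ∀ (N : ℕ) (R : Type) [Field R] [CharZero R], Even N →
  ∀ Ω : Matrix (Fin (N + 1)) (Fin (N + 1)) R, Ω.transpose = -Ω →
  (fun i => Ω.adjugate i 0) ≠ 0 →
  Ω.mulVec (fun i => Ω.adjugate i 0) = 0 ∧
  ∀ v : Fin (N + 1) → R, Ω.mulVec v = 0 → ∃ s : R, v = fun i => s * Ω.adjugate i 0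

/-- (FR) the frame, from `S_GN`, `S_KER`, `S_AM`. Proof: apply `φ g` to `wv f`: it is in the kernel of
`φ g (Ow f) = Ow (g f g⁻¹) = g⁻ᵀ (Ow f) g⁻¹`, which contains `g (wv f)`; so `φ g (wv f) = χ g (wv f)`,
and `φ g (Am f) = g (Am f) g⁻¹`. -/
def S_FR : Prop := ∀ (N : ℕ) (K M : Type) [Field K] [CharZero K] [Field M] [Algebra K M] (D : D3 N K M)
  (g : GP N K), ∃ χ : M, χ ≠ 0 ∧ (Fr D.f).map (D.φ g) = χ • (ext M g.1.1 * Fr D.f)

/-- (UU) the normalised self map, from `S_FR`, `S_GN`, `S_AM`, `S_HB`, `S_KER` and `S_ACT` of ME.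
Proof: `φ g (u0 f) = act (χ g F)⁻¹ (χ g F) (act g g⁻¹ f) = χ² u0 f` (`F = Fr f`), and `hs` scales by the
same factor. `hs f = w·Hm w ≠ 0` (the first column of `F` is `w`, `Hm (u0 f) = Fᵀ Hm F`).
`Am (uu f) = F⁻¹ (Am f) F`, and `(Am f) F e_j = F e_{j+1}`; `Ow (uu f) = hs⁻¹ Fᵀ (Ow f) F`. The last
identity: `act F F⁻¹ (u0 f) = f`. -/
def S_UU : Prop := ∀ (N : ℕ) (K M : Type) [Field K] [CharZero K] [Field M] [Algebra K M] (D : D3 N K M),
  (Fr D.f).det ≠ 0 ∧ hs D.f ≠ 0 ∧ (∀ g p, D.φ g (uu D.f p) = uu D.f p) ∧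
  Hm (uu D.f) 0 0 = 1 ∧ (Hm (uu D.f)).det ≠ 0 ∧
  (∀ j j' : Fin (N + 1), (j : ℕ) + 1 = j' → ∀ i, Am (uu D.f) i j = if i = j' then 1 else 0) ∧
  (∀ i, Ow (uu D.f) i 0 = 0) ∧
  ∀ p, D.f p = hs D.f * act (Fr D.f) (Fr D.f)⁻¹ (uu D.f) p

/-- (RO) over an algebraically closed field `f` and `uu f` are conjugate, from `S_UU` and `S_ACT` of ME.
Proof: `λ² = hs⁻¹`, `γ = λ F`: `act γ γ⁻¹ u = λ⁻² act F F⁻¹ u`. -/
def S_RO : Prop := ∀ (N : ℕ) (K M Ω : Type) [Field K] [CharZero K] [Field M] [Algebra K M] [Field Ω]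
  [Algebra M Ω] [IsAlgClosed Ω] (D : D3 N K M), ∃ γ γ' : Matrix (Fin (N + 1)) (Fin (N + 1)) Ω,
    γ * γ' = 1 ∧ (∀ p, algebraMap M Ω (uu D.f p) = act γ' γ (fun p => algebraMap M Ω (D.f p)) p) ∧
    ∀ p, algebraMap M Ω (D.f p) = act γ γ' (fun p => algebraMap M Ω (uu D.f p)) p

/-- (INV) the invariants are rational functions of `uu f`, from `S_RO` (copy `T_INV` of ME, which is
the same statement for its `ft`, using its `S_ROO` where we have `S_RO`). Proof: `x = P(f)/Q(f)` with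
coprime polynomials `P`, `Q` over `K`. `φ g x = x` gives `Q(g f g⁻¹) = c(g) Q(f)`, `P(g f g⁻¹) = c(g)
P(f)` as polynomials, `c(g) ∈ K`; `GL(K)` is dense (`S_DEN` of ME), so the same holds for `g ∈ GL(Ω)`,
`c(g) ∈ Ω` nonzero, in particular for `g = γ'`: `x = P(uu f)/Q(uu f)`. -/
def S_INV3 : Prop := ∀ (N : ℕ) (K M : Type) [Field K] [CharZero K] [Field M] [Algebra K M] (D : D3 N K M)
  (x : M), (∀ g, D.φ g x = x) → x ∈ IntermediateField.adjoin K (Set.range (uu D.f))

/-- (TDB) the transcendence degree, from `S_RO` and `S_TRD` of ME (copy `T_TDB` of ME). Proof: in an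
algebraic closure `Ω` of `M` the `#Ix` algebraically independent elements `f p` are in the field
generated over `K` by `x` and the `n^2` entries of `γ`; so these `#κ + n^2 = #Ix` elements are
algebraically independent (`S_TRD`). -/
def S_TDB3 : Prop := ∀ (N : ℕ) (K M : Type) [Field K] [CharZero K] [Field M] [Algebra K M] (D : D3 N K M)
  (κ : Type) [Finite κ] (x : κ → M), IntermediateField.adjoin K (Set.range x) =
    IntermediateField.adjoin K (Set.range (uu D.f)) →
  Nat.card κ + (N + 1) ^ 2 = Nat.card (Ix N 2) → AlgebraicIndependent K x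

/-- (LIN) linear algebra: coordinates for the solutions of a system of linear equations with a
coefficient matrix `L` over a field `F`. If the rank of `L` is `r` then there is a set `Z` of
coordinates with `#Z + r = #ι` such that every solution `c` over an extension `M` is determined over
`F` by the right hand sides and the `c z`, `z ∈ Z`. Proof: the rows of `L` span a space of dimension
`r` in `F^ι`; complete by unit vectors `e_z`, `z ∈ Z`, to a basis; write each unit vector `e_p` as a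
combination of the rows and the `e_z`. -/
def S_LIN : Prop := ∀ (F M : Type) [Field F] [Field M] [Algebra F M] (ι κ : Type) [Fintype ι] [Fintype κ]
  (L : Matrix κ ι F) , ∃ Z : Finset ι, Z.card + L.rank = Fintype.card ι ∧
  ∀ c : ι → M, ∀ p : ι, c p ∈ Submodule.span F
    ((Set.range fun k => ∑ q, algebraMap F M (L k q) * c q) ∪ c '' Z)

/-- (RK) the rank of the linear system, from `S_SUR` and `S_T3`: for a symmetric invertible `H` over a
field `F` let `L` be the matrix of the linear map `c ↦ (Hm c, (∑_kl H⁻¹_kl T3 c i j k l)_ij)`. Its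
rank is `n(n+1)/2 + n^2 - 1`. Proof: by `S_SUR` the range is the space of the pairs `(H', A')` with
`H'` symmetric and `tr A' = tr (H⁻¹ H')`. -/
def S_RK : Prop := ∀ (n : ℕ) (F : Type) [Field F] [CharZero F], 2 ≤ n →
  ∀ H : Matrix (Fin n) (Fin n) F, H.det ≠ 0 → H.transpose = H →
  ∃ L : Matrix ((Fin n × Fin n) ⊕ (Fin n × Fin n)) (Fin n × Mon n 3) F,
    L.rank + 1 = n * (n + 1) / 2 + n ^ 2 ∧
    ∀ (M : Type) [Field M] [Algebra F M] (c : Fin n × Mon n 3 → M),
      (∀ j k, ∑ q, algebraMap F M (L (Sum.inl (j, k)) q) * c q = Hm c j k) ∧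
      ∀ i j, ∑ q, algebraMap F M (L (Sum.inr (i, j)) q) * c q =
        ∑ k, ∑ l, algebraMap F M (H⁻¹ k l) * T3 c i j k l

/-- (HA) the field generated by the entries of `Hm u`, `Am u`, from `S_UU`, `S_AM`. Proof: `H` is
symmetric, `H_00 = 1`; `Ow e_0 = 0` says `(H A)_i0 = (Aᵀ H)_i0`, i.e. `H_i1 = ∑_k A_ki H_k0`, which is
`H_{i+1,0}` for `i < N` and `∑_k a_k H_k0` for `i = N`, where `a_k = A_kN`, and `a_N = tr A = n`. So the
field is generated by the `H_ij` with `i ≤ j`, `(i,j) ≠ (0,0)` and not `(i = 0 and j ≥ 2)` (for these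
`H_0j = H_{j-1,1}`), and `a_1, …, a_{N-1}` (`a_0 = H_N1 - ∑_{k ≥ 1} a_k H_k0`): the number is
`n(n+1)/2 - 1 - (N-1) + (N-1) = n(n+1)/2 - 1`. -/
def S_HA : Prop := ∀ (N : ℕ) (K M : Type) [Field K] [CharZero K] [Field M] [Algebra K M],
  2 ≤ N → ∀ (H A : Matrix (Fin (N + 1)) (Fin (N + 1)) M), H.transpose = H → H 0 0 = 1 →
  A.trace = (N + 1 : ℕ) →
  (∀ j j' : Fin (N + 1), (j : ℕ) + 1 = j' → ∀ i, A i j = if i = j' then 1 else 0) →
  (∀ i, (H * A - A.transpose * H) i 0 = 0) →
  ∃ x : Fin ((N + 1) * (N + 2) / 2 - 1) → M, IntermediateField.adjoin K (Set.range x) =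
    IntermediateField.adjoin K ((Set.range fun p : Fin (N + 1) × Fin (N + 1) => H p.1 p.2) ∪
      Set.range fun p : Fin (N + 1) × Fin (N + 1) => A p.1 p.2)

/-- (SO) generators of `K(uu f)`, from `S_HA`, `S_RK`, `S_LIN`, `S_UU`, `S_AM`, `S_HB`. Proof: let
`u = uu f`, `F` the field generated by the entries of `H = Hm u`, `A = Am u` (in `K(u)`), generated by
`n(n+1)/2 - 1` elements (`S_HA`). By `S_RK`, `S_LIN` over `F` there are `#Ix - (n(n+1)/2 + n^2 - 1)`
coordinates `z` such that all `u p` are in `F(u_z)`. -/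
def S_SO : Prop := ∀ (N : ℕ) (K M : Type) [Field K] [CharZero K] [Field M] [Algebra K M] (D : D3 N K M),
  ∃ (q : ℕ) (x : Fin q → M), q + (N + 1) ^ 2 = Nat.card (Ix N 2) ∧
    IntermediateField.adjoin K (Set.range x) = IntermediateField.adjoin K (Set.range (uu D.f))

/-- (RAT) the field of invariants is purely transcendental, from `S_SO`, `S_TDB3`, `S_INV3`, `S_UU`. -/
def S_RAT3 : Prop := ∀ (N : ℕ) (K M : Type) [Field K] [CharZero K] [Field M] [Algebra K M] (D : D3 N K M),
  ∃ (q : ℕ) (x : Fin q → M), AlgebraicIndependent K x ∧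
    ∀ y : M, (∀ g, D.φ g y = y) ↔ y ∈ IntermediateField.adjoin K (Set.range x)

end Pool.Agent.T2h8.R3
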