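import Pool.Agent.T2h8.R3.Stm

set_option autoImplicit false

open MvPolynomial Pool.Agent.Z15.ME

namespace Pool.Agent.T2h8.R3

theorem t_RO (hACT : S_ACT) (h_UU : S_UU) : S_RO := by
  intro N K M Ω _ _ _ _ _ _ _ D
  obtain ⟨hF, hh, -, -, -, -, -, hf⟩ := h_UU N K M D
  obtain ⟨δ, hδ⟩ := IsAlgClosed.exists_pow_nat_eq (algebraMap M Ω (hs D.f)) (n := 2) (by norm_num)
  have hh' : algebraMap M Ω (hs D.f) ≠ 0 := by
    intro h
    exact hh ((algebraMap M Ω).injective (by rw [h, map_zero]))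
  have hδ0 : δ ≠ 0 := by
    rintro rfl
    rw [zero_pow two_ne_zero] at hδ
    exact hh' hδ.symm
  have hU : IsUnit (Fr D.f).det := hF.isUnit
  obtain ⟨Ci, hCi⟩ : ∃ Ci : Matrix (Fin (N + 1)) (Fin (N + 1)) Ω,
      Ci = ((Fr D.f)⁻¹).map (algebraMap M Ω) := ⟨_, rfl⟩
  obtain ⟨Cm, hCm⟩ : ∃ Cm : Matrix (Fin (N + 1)) (Fin (N + 1)) Ω,
      Cm = (Fr D.f).map (algebraMap M Ω) := ⟨_, rfl⟩
  have h1 : Cm * Ci = 1 := by
    rw [hCi, hCm, ← Matrix.map_mul, Matrix.mul_nonsing_inv _ hU, Matrix.map_one _ (map_zero _)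
      (map_one _)]
  obtain ⟨-, -, -, -, -, -, h7, h8, h9, -, -⟩ := hACT (N + 1) 3 Ω
  have h12 : ∀ (S : Type) [CommRing S] (σ : M →+* S)
      (A A' : Matrix (Fin (N + 1)) (Fin (N + 1)) M) (c : Fin (N + 1) × Mon (N + 1) 3 → M),
      act (A.map σ) (A'.map σ) (fun p => σ (c p)) = fun p => σ (act A A' c p) :=
    (hACT (N + 1) 3 M).2.2.2.2.2.2.2.2.2.2
  -- gamma = δ⁻¹ F
  have hgg : (δ⁻¹ • Cm) * (δ • Ci) = 1 := by
    rw [Matrix.smul_mul, Matrix.mul_smul, h1, smul_smul, inv_mul_cancel₀ hδ0, one_smul]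
  have hf' : ∀ p, algebraMap M Ω (D.f p) =
      act (δ⁻¹ • Cm) (δ • Ci) (fun p => algebraMap M Ω (uu D.f p)) p := by
    intro p
    have e1 : δ⁻¹ • Cm = (δ⁻¹ • 1 : Matrix (Fin (N + 1)) (Fin (N + 1)) Ω) * Cm := by
      rw [Matrix.smul_mul, one_mul]
    have e2 : δ • Ci = Ci * (δ • 1 : Matrix (Fin (N + 1)) (Fin (N + 1)) Ω) := by
      rw [Matrix.mul_smul, mul_one]
    rw [e1, e2, ← h7, h9, hCi, hCm, h12]
    show _ = δ⁻¹ * δ ^ 3 * algebraMap M Ω (act (Fr D.f) (Fr D.f)⁻¹ (uu D.f) p)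
    rw [hf p, map_mul, ← hδ]
    congr 1
    field_simp
  refine ⟨δ⁻¹ • Cm, δ • Ci, hgg, ?_, hf'⟩
  intro p
  have h13 : (fun p => algebraMap M Ω (D.f p)) =
      act (δ⁻¹ • Cm) (δ • Ci) (fun p => algebraMap M Ω (uu D.f p)) := funext hf'
  have hgg' : (δ • Ci) * (δ⁻¹ • Cm) = 1 := mul_eq_one_comm.mp hgg
  rw [h13, h7, hgg', h8]

end Pool.Agent.T2h8.R3
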